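import Mathlib

/-!
The branches of a tree at a vertex.
-/

namespace Pool.Agent.Lib.P9f173dT

section tree

variable {V : Type*} {T : SimpleGraph V}

theorem mem_walk_of_dist (hT : T.IsTree) {a b c : V} (h : T.dist a c = T.dist a b + T.dist b c)
    (W : T.Walk a c) : b ∈ W.support := by
  classical
  obtain ⟨P₁, h1⟩ := hT.connected.exists_walk_length_eq_dist a b
  obtain ⟨P₂, h2⟩ := hT.connected.exists_walk_length_eq_dist b c
  have h3 : (P₁.append P₂).IsPath := by
    apply SimpleGraph.Walk.isPath_of_length_eq_dist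
    rw [SimpleGraph.Walk.length_append, h1, h2, h]
  have h4 : (⟨_, h3⟩ : T.Path a c) = ⟨_, W.bypass_isPath⟩ :=
    (hT.isAcyclic.subsingleton_path a c).elim _ _
  have h5 : P₁.append P₂ = W.bypass := congrArg Subtype.val h4
  apply W.support_bypass_subset_support
  rw [← h5, SimpleGraph.Walk.mem_support_append_iff]
  exact Or.inl P₁.end_mem_support

theorem dist_of_mem (hT : T.IsTree) {a b c : V} (h : ∀ W : T.Walk a c, b ∈ W.support) :
    T.dist a c = T.dist a b + T.dist b c := by
  classical
  apply le_antisymm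
  · exact hT.connected.dist_triangle
  · obtain ⟨P, hP⟩ := hT.connected.exists_walk_length_eq_dist a c
    have hb := h P
    have h1 := congrArg SimpleGraph.Walk.length (P.take_spec hb)
    rw [SimpleGraph.Walk.length_append, hP] at h1
    have h2 := SimpleGraph.dist_le (P.takeUntil b hb)
    have h3 := SimpleGraph.dist_le (P.dropUntil b hb)
    omega

theorem dist_unique (hT : T.IsTree) {a b b' c : V} (h : T.dist a c = T.dist a b + T.dist b c)
    (h' : T.dist a c = T.dist a b' + T.dist b' c) (hb : T.dist a b = T.dist a b') : b = b' := by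
  classical
  obtain ⟨P₁, h1⟩ := hT.connected.exists_walk_length_eq_dist a b
  obtain ⟨P₂, h2⟩ := hT.connected.exists_walk_length_eq_dist b c
  have h3 := mem_walk_of_dist hT h' (P₁.append P₂)
  rw [SimpleGraph.Walk.mem_support_append_iff] at h3
  rcases h3 with h3 | h3
  · have h4 := congrArg SimpleGraph.Walk.length (P₁.take_spec h3)
    rw [SimpleGraph.Walk.length_append, h1] at h4
    have h5 := SimpleGraph.dist_le (P₁.takeUntil b' h3)
    have h6 := SimpleGraph.dist_le (P₁.dropUntil b' h3)
    have h7 : T.dist b' b = 0 := by omega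
    exact (hT.connected.dist_eq_zero_iff.mp h7).symm
  · have h4 := congrArg SimpleGraph.Walk.length (P₂.take_spec h3)
    rw [SimpleGraph.Walk.length_append, h2] at h4
    have h5 := SimpleGraph.dist_le (P₂.takeUntil b' h3)
    have h6 := SimpleGraph.dist_le (P₂.dropUntil b' h3)
    have h7 : T.dist b b' = 0 := by omega
    exact hT.connected.dist_eq_zero_iff.mp h7

/-- The vertex `e` is the neighbour of `w` in the direction of `v`. -/
def Br (T : SimpleGraph V) (w v e : V) : Prop := T.Adj w e ∧ ∃ p : T.Walk e v, w ∉ p.support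

theorem adj_dist {a b : V} (h : T.Adj a b) : T.dist a b = 1 :=
  SimpleGraph.dist_eq_one_iff_adj.mpr h

theorem shortest_avoids {w v e : V} (h : T.Adj w e) (hd : T.dist w v = T.dist e v + 1)
    (p : T.Walk e v) (hp : p.length = T.dist e v) : w ∉ p.support := by
  classical
  intro hw
  have h1 := congrArg SimpleGraph.Walk.length (p.take_spec hw)
  rw [SimpleGraph.Walk.length_append, hp] at h1
  have h2 := SimpleGraph.dist_le (p.dropUntil w hw)
  omega

theorem Br_iff (hT : T.IsTree) {w v e : V} :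
    Br T w v e ↔ T.Adj w e ∧ T.dist w v = T.dist e v + 1 := by
  constructor
  · rintro ⟨h, p, hp⟩
    refine ⟨h, ?_⟩
    rcases hT.dist_eq_dist_add_one_of_adj v h with h1 | h1
    · rw [SimpleGraph.dist_comm, h1, SimpleGraph.dist_comm]
    · exfalso
      apply hp
      apply mem_walk_of_dist hT
      rw [adj_dist h.symm, SimpleGraph.dist_comm, h1, SimpleGraph.dist_comm (u := w) (v := v)]
      omega
  · rintro ⟨h, hd⟩
    obtain ⟨p, hp⟩ := hT.connected.exists_walk_length_eq_dist e v
    exact ⟨h, p, shortest_avoids h hd p hp⟩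

theorem dist_through (hT : T.IsTree) {w e z x : V} (h : T.Adj w e)
    (hz : T.dist e z = T.dist w z + 1) (hx : T.dist w x = T.dist e x + 1) :
    T.dist z x = T.dist z w + 1 + T.dist e x := by
  have h1 : ∀ W : T.Walk z x, w ∈ W.support := by
    intro W
    obtain ⟨p, hp⟩ := hT.connected.exists_walk_length_eq_dist e x
    have h2 := shortest_avoids h hx p hp
    have h3 := mem_walk_of_dist hT (a := z) (b := w) (c := e) (by
      rw [SimpleGraph.dist_comm, hz, SimpleGraph.dist_comm, adj_dist h]) (W.append p.reverse)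
    rw [SimpleGraph.Walk.mem_support_append_iff, SimpleGraph.Walk.support_reverse,
      List.mem_reverse] at h3
    rcases h3 with h3 | h3
    · exact h3
    · exact absurd h3 h2
  rw [dist_of_mem hT h1, hx]
  omega

theorem Br.exists (hT : T.IsTree) {w v : V} (h : v ≠ w) : ∃ e, Br T w v e := by
  obtain ⟨p, hp, _⟩ := hT.existsUnique_path w v
  have hp' : p.IsPath := hp
  clear hp
  match p, hp' with
  | SimpleGraph.Walk.nil, _ => exact absurd rfl h
  | SimpleGraph.Walk.cons (v := e) h' p, hp =>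
    rw [SimpleGraph.Walk.cons_isPath_iff] at hp
    exact ⟨e, h', p, hp.2⟩

theorem Br.unique (hT : T.IsTree) {w v e e' : V} (h : Br T w v e) (h' : Br T w v e') :
    e = e' := by
  rw [Br_iff hT] at h h'
  apply dist_unique hT (a := w) (c := v)
  · rw [adj_dist h.1, h.2]; omega
  · rw [adj_dist h'.1, h'.2]; omega
  · rw [adj_dist h.1, adj_dist h'.1]

theorem Br.adj {w a b e : V} (h : Br T w a e) (hab : T.Adj a b) (hb : b ≠ w) : Br T w b e := by
  obtain ⟨h1, p, hp⟩ := h
  refine ⟨h1, p.concat hab, ?_⟩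
  rw [SimpleGraph.Walk.support_concat]
  simp only [List.mem_append, List.mem_singleton, not_or]
  exact ⟨hp, hb.symm⟩

theorem Br.self {w e : V} (h : T.Adj w e) : Br T w e e :=
  ⟨h, SimpleGraph.Walk.nil, by
    rw [SimpleGraph.Walk.support_nil, List.mem_singleton]
    exact h.ne⟩

variable {G : Type*} [Group G] [MulAction G V]

/-- The action by graph homomorphisms. -/
def actHom (T : SimpleGraph V) (hadj : ∀ (g : G) (v v' : V), T.Adj v v' → T.Adj (g • v) (g • v'))
    (g : G) : T →g T where
  toFun v := g • v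
  map_rel' h := hadj g _ _ h

theorem dist_smul (hT : T.IsTree)
    (hadj : ∀ (g : G) (v v' : V), T.Adj v v' → T.Adj (g • v) (g • v')) (g : G) (a b : V) :
    T.dist (g • a) (g • b) = T.dist a b := by
  have h1 : ∀ (g : G) (a b : V), T.dist (g • a) (g • b) ≤ T.dist a b := by
    intro g a b
    obtain ⟨p, hp⟩ := hT.connected.exists_walk_length_eq_dist a b
    have h2 := SimpleGraph.dist_le (p.map (actHom T hadj g))
    rw [SimpleGraph.Walk.length_map, hp] at h2
    exact h2
  apply le_antisymm (h1 g a b)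
  have h2 := h1 g⁻¹ (g • a) (g • b)
  rwa [inv_smul_smul, inv_smul_smul] at h2

theorem Br.smul (hT : T.IsTree)
    (hadj : ∀ (g : G) (v v' : V), T.Adj v v' → T.Adj (g • v) (g • v')) {w v e : V}
    (h : Br T w v e) {g : G} (hg : g • w = w) : Br T w (g • v) (g • e) := by
  rw [Br_iff hT] at h ⊢
  refine ⟨?_, ?_⟩
  · have := hadj g _ _ h.1
    rwa [hg] at this
  · have h1 := dist_smul hT hadj g w v
    have h2 := dist_smul hT hadj g e v
    rw [hg] at h1
    rw [h1, h2, h.2]

/-- The direction map of a tree at a vertex. -/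
structure Dir (T : SimpleGraph V) (G : Type*) [Group G] [MulAction G V] (w : V)
    (nb : V → V) : Prop where
  eqv : ∀ g : G, g • w = w → ∀ v, nb (g • v) = g • nb v
  base : nb w = w
  cut : ∀ v₁ v₂ : V, ∃ F : Finset V, ∀ γ : G, nb (γ • v₁) ≠ nb (γ • v₂) → ∃ p ∈ F, γ • p = w
  adj : ∀ v, v ≠ w → T.Adj w (nb v)
  dist : ∀ v, v ≠ w → T.dist w v = T.dist (nb v) v + 1
  uniq : ∀ v e, T.Adj w e → T.dist w v = T.dist e v + 1 → nb v = e

theorem exists_nb (hT : T.IsTree)
    (hadj : ∀ (g : G) (v v' : V), T.Adj v v' → T.Adj (g • v) (g • v')) (w : V) :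
    ∃ nb : V → V, Dir T G w nb := by
  classical
  have h0 : ∀ v : V, ∃ e : V, (v = w → e = w) ∧ (v ≠ w → Br T w v e) := by
    intro v
    by_cases hv : v = w
    · exact ⟨w, fun _ => rfl, fun h => absurd hv h⟩
    · obtain ⟨e, he⟩ := Br.exists hT hv
      exact ⟨e, fun h => absurd h hv, fun _ => he⟩
  choose nb nb1 nb2 using h0
  have hadj' : ∀ a b, T.Adj a b → a ≠ w → b ≠ w → nb a = nb b :=
    fun a b hab ha hb => Br.unique hT ((nb2 a ha).adj hab hb) (nb2 b hb)
  have hwalk : ∀ (γ : G) (a b : V) (p : T.Walk a b), (∀ x ∈ p.support, γ • x ≠ w) →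
      nb (γ • a) = nb (γ • b) := by
    intro γ a b p
    induction p with
    | nil => intro _; rfl
    | cons h p ih =>
      intro hx
      rw [SimpleGraph.Walk.support_cons] at hx
      have h1 := hx _ List.mem_cons_self
      have h2 := hx _ (List.mem_cons_of_mem _ p.start_mem_support)
      rw [hadj' _ _ (hadj γ _ _ h) h1 h2]
      exact ih fun x hxp => hx x (List.mem_cons_of_mem _ hxp)
  refine ⟨nb, ?_, nb1 w rfl, ?_, ?_, ?_, ?_⟩
  · intro g hg v
    by_cases hv : v = w
    · subst hv
      rw [hg, nb1 v rfl, hg]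
    · have h1 : g • v ≠ w := by
        intro h
        apply hv
        apply MulAction.injective g
        simp only [h, hg]
      exact Br.unique hT (nb2 _ h1) ((nb2 v hv).smul hT hadj hg)
  · intro v₁ v₂
    obtain ⟨p⟩ := hT.connected.preconnected v₁ v₂
    refine ⟨p.support.toFinset, ?_⟩
    intro γ hγ
    by_contra hcon
    apply hγ
    apply hwalk γ v₁ v₂ p
    intro x hx h
    exact hcon ⟨x, List.mem_toFinset.mpr hx, h⟩
  · intro v hv
    exact (nb2 v hv).1
  · intro v hv
    exact ((Br_iff hT).mp (nb2 v hv)).2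
  · intro v e he hd
    have hv : v ≠ w := by
      rintro rfl
      rw [SimpleGraph.dist_self] at hd
      omega
    exact Br.unique hT (nb2 v hv) ((Br_iff hT).mpr ⟨he, hd⟩)

theorem q_dist (hT : T.IsTree)
    (hadj : ∀ (g : G) (v v' : V), T.Adj v v' → T.Adj (g • v) (g • v')) {w e : V}
    (h : T.Adj w e) {q : G} (hq : T.dist w (q • w) < T.dist e (q • e)) :
    T.dist w (q • e) = T.dist w (q • w) + 1 ∧ T.dist e (q • e) = T.dist w (q • e) + 1 := by
  have h1 := hT.dist_eq_dist_add_one_of_adj w (hadj q _ _ h)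
  have h2 := hT.dist_eq_dist_add_one_of_adj (q • e) h
  rw [SimpleGraph.dist_comm (u := q • e) (v := w), SimpleGraph.dist_comm (u := q • e) (v := e)]
    at h2
  omega

theorem q_move (hT : T.IsTree)
    (hadj : ∀ (g : G) (v v' : V), T.Adj v v' → T.Adj (g • v) (g • v')) {w e : V}
    (h : T.Adj w e) {q : G} (hq : T.dist w (q • w) < T.dist e (q • e)) {x : V}
    (hx : T.dist w x = T.dist e x + 1) :
    T.dist w (q • x) = T.dist w (q • e) + T.dist (q • e) (q • x) := by
  obtain ⟨h1, h2⟩ := q_dist hT hadj h hq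
  have e1 : ∀ a, T.dist a (q⁻¹ • w) = T.dist (q • a) w := by
    intro a
    rw [← dist_smul hT hadj q a (q⁻¹ • w), smul_inv_smul]
  have h3 := dist_through hT (z := q⁻¹ • w) h (by
    rw [e1, e1, SimpleGraph.dist_comm, h1, SimpleGraph.dist_comm]) hx
  have h4 : T.dist (q⁻¹ • w) x = T.dist w (q • x) := by
    rw [← dist_smul hT hadj q (q⁻¹ • w) x, smul_inv_smul]
  have h5 : T.dist (q⁻¹ • w) w = T.dist w (q • w) := by
    rw [SimpleGraph.dist_comm, e1, SimpleGraph.dist_comm]
  rw [h4, h5] at h3
  rw [h3, h1, dist_smul hT hadj]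

theorem q_nb {w : V} {nb : V → V} (hT : T.IsTree)
    (hadj : ∀ (g : G) (v v' : V), T.Adj v v' → T.Adj (g • v) (g • v')) (hnb : Dir T G w nb)
    {e : V} (h : T.Adj w e) {q : G} (hq : T.dist w (q • w) < T.dist e (q • e)) {x : V}
    (hx : T.dist w x = T.dist e x + 1) : nb (q • x) = nb (q • e) := by
  obtain ⟨h1, h2⟩ := q_dist hT hadj h hq
  have h3 := q_move hT hadj h hq hx
  have h4 : q • e ≠ w := by
    intro h5
    rw [h5, SimpleGraph.dist_self] at h1
    omega
  apply hnb.uniq _ _ (hnb.adj _ h4)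
  have h5 := hnb.dist _ h4
  have h6 : T.dist (nb (q • e)) (q • x) ≤ T.dist (nb (q • e)) (q • e) + T.dist (q • e) (q • x) :=
    hT.connected.dist_triangle
  have h7 : T.dist w (q • x) ≤ T.dist w (nb (q • e)) + T.dist (nb (q • e)) (q • x) :=
    hT.connected.dist_triangle
  rw [adj_dist (hnb.adj _ h4)] at h7
  omega

theorem q_nb_ne {w : V} {nb : V → V} (hT : T.IsTree)
    (hadj : ∀ (g : G) (v v' : V), T.Adj v v' → T.Adj (g • v) (g • v')) (hnb : Dir T G w nb)
    {e : V} (h : T.Adj w e) {q : G} (hq : T.dist w (q • w) < T.dist e (q • e)) :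
    nb (q • e) ≠ e := by
  obtain ⟨h1, h2⟩ := q_dist hT hadj h hq
  have h4 : q • e ≠ w := by
    intro h5
    rw [h5, SimpleGraph.dist_self] at h1
    omega
  intro h5
  have h6 := hnb.dist _ h4
  rw [h5] at h6
  omega

theorem q_fix {w : V} (hT : T.IsTree)
    (hadj : ∀ (g : G) (v v' : V), T.Adj v v' → T.Adj (g • v) (g • v'))
    {e : V} (h : T.Adj w e) {q : G} (hq : T.dist w (q • w) < T.dist e (q • e)) {k : G}
    (hk : k • w = w) (hk2 : k • q • e = q • e) : k • q • w = q • w := by
  obtain ⟨h1, h2⟩ := q_dist hT hadj h hq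
  have h3 : T.dist (q • w) (q • e) = 1 := adj_dist (hadj q _ _ h)
  have h4 : T.dist (k • q • w) (q • e) = 1 := by
    have := dist_smul hT hadj k (q • w) (q • e)
    rw [hk2] at this
    rw [this, h3]
  have h5 : T.dist w (k • q • w) = T.dist w (q • w) := by
    have := dist_smul hT hadj k w (q • w)
    rwa [hk] at this
  apply dist_unique hT (a := w) (c := q • e)
  · rw [h4, h5, h1]
  · rw [h3, h1]
  · exact h5

end tree

end Pool.Agent.Lib.P9f173dT
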