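import Pool.Agent.Lib.P9f173d.Conv
import Pool.Agent.Lib.P9f173d.Hilb
import Pool.Agent.Lib.P9f173d.CStar

/-!
Exactness on square-summable functionals gives vanishing of the homology with coefficients in
the reduced algebra.
-/

namespace Pool.Agent.Lib.P9f173dT

open Pool.Agent.Lib.P9f173d ContinuousLinearMap

section mat

variable {H : Type*} [NormedAddCommGroup H] [InnerProductSpace ℂ H] [CompleteSpace H]
  {ι : Type*} [Fintype ι] [DecidableEq ι]

/-- The finite direct sum of copies of `H`. -/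
abbrev KK (ι H : Type*) := PiLp 2 (fun _ : ι => H)

/-- The projections. -/
noncomputable def pr (H : Type*) [NormedAddCommGroup H] [InnerProductSpace ℂ H]
    {ι : Type*} [Fintype ι] (c : ι) : KK ι H →L[ℂ] H :=
  ContinuousLinearMap.proj (R := ℂ) (φ := fun _ : ι => H) c ∘L
    (PiLp.continuousLinearEquiv 2 ℂ (fun _ : ι => H)).toContinuousLinearMap

/-- The inclusions. -/
noncomputable def inj (H : Type*) [NormedAddCommGroup H] [InnerProductSpace ℂ H]
    {ι : Type*} [Fintype ι] [DecidableEq ι] (c : ι) : H →L[ℂ] KK ι H :=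
  (PiLp.continuousLinearEquiv 2 ℂ (fun _ : ι => H)).symm.toContinuousLinearMap ∘L
    ContinuousLinearMap.single ℂ (fun _ : ι => H) c

omit [CompleteSpace H] in
omit [DecidableEq ι] in
theorem pr_apply (c : ι) (k : KK ι H) : pr H c k = k c := rfl

omit [CompleteSpace H] in
theorem inj_apply (c c' : ι) (h : H) : (inj H c h) c' = if c' = c then h else 0 := by
  show (Pi.single c h : ι → H) c' = _
  rw [Pi.single_apply]

omit [CompleteSpace H] in
theorem sum_inj_pr (k : KK ι H) : ∑ c, inj H c (pr H c k) = k := by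
  ext c'
  rw [WithLp.ofLp_sum, Finset.sum_apply]
  have : ∀ c, (inj H c (pr H c k)).ofLp c' = if c' = c then k c else 0 :=
    fun c => inj_apply c c' _
  simp only [this]
  rw [Finset.sum_ite_eq, if_pos (Finset.mem_univ _)]

omit [CompleteSpace H] in
theorem pr_inj (c c' : ι) (h : H) : pr H c (inj H c' h) = if c = c' then h else 0 :=
  inj_apply c' c h

theorem inj_adjoint (c : ι) : (inj H c).adjoint = pr H c := by
  symm
  rw [eq_adjoint_iff]
  intro x y
  rw [PiLp.inner_apply, Finset.sum_eq_single c]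
  · rw [inj_apply, if_pos rfl, pr_apply]
  · intro c' _ h
    rw [inj_apply, if_neg h, inner_zero_right]
  · intro h
    exact absurd (Finset.mem_univ _) h

theorem pr_adjoint (c : ι) : (pr H c).adjoint = inj H c := by
  rw [← inj_adjoint, adjoint_adjoint]

/-- The matrix entries of an operator. -/
noncomputable def ent (T : KK ι H →L[ℂ] KK ι H) (c c' : ι) : H →L[ℂ] H :=
  pr H c ∘L T ∘L inj H c'

omit [CompleteSpace H] in
theorem ent_apply (T : KK ι H →L[ℂ] KK ι H) (c c' : ι) (h : H) :
    ent T c c' h = (T (inj H c' h)) c := rfl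

omit [CompleteSpace H] in
theorem ent_add (S T : KK ι H →L[ℂ] KK ι H) (c c' : ι) :
    ent (S + T) c c' = ent S c c' + ent T c c' := by
  ext h
  rfl

omit [CompleteSpace H] in
theorem ent_mul (S T : KK ι H →L[ℂ] KK ι H) (c c'' : ι) :
    ent (S * T) c c'' = ∑ c', ent S c c' * ent T c' c'' := by
  ext h
  rw [_root_.sum_apply]
  show pr H c (S (T (inj H c'' h))) = ∑ c', pr H c (S (inj H c' (pr H c' (T (inj H c'' h)))))
  rw [← map_sum, ← map_sum, sum_inj_pr]

theorem ent_star (T : KK ι H →L[ℂ] KK ι H) (c c' : ι) :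
    ent (star T) c c' = star (ent T c' c) := by
  show pr H c ∘L T.adjoint ∘L inj H c' = (pr H c' ∘L T ∘L inj H c).adjoint
  rw [adjoint_comp, adjoint_comp, inj_adjoint, pr_adjoint]
  rfl

omit [CompleteSpace H] in
theorem ent_algebraMap (r : ℂ) (c c' : ι) :
    ent (algebraMap ℂ (KK ι H →L[ℂ] KK ι H) r) c c' =
      if c = c' then algebraMap ℂ (H →L[ℂ] H) r else 0 := by
  ext h
  rw [Algebra.algebraMap_eq_smul_one, Algebra.algebraMap_eq_smul_one]
  show pr H c (r • inj H c' h) = _
  rw [map_smul, pr_inj]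
  split_ifs <;> simp

omit [CompleteSpace H] in
theorem ent_one (c c' : ι) : ent (1 : KK ι H →L[ℂ] KK ι H) c c' = if c = c' then 1 else 0 := by
  have := ent_algebraMap (H := H) (1 : ℂ) c c'
  rw [map_one, map_one] at this
  exact this

omit [CompleteSpace H] in
theorem ent_continuous (c c' : ι) :
    Continuous (fun T : KK ι H →L[ℂ] KK ι H => ent T c c') := by
  unfold ent
  fun_prop

omit [CompleteSpace H] in
theorem ent_ext {S T : KK ι H →L[ℂ] KK ι H} (h : ∀ c c', ent S c c' = ent T c c') : S = T := by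
  ext1 k
  rw [← sum_inj_pr k, map_sum, map_sum]
  apply Finset.sum_congr rfl
  intro c' _
  ext c
  exact congrArg (fun F : H →L[ℂ] H => F (pr H c' k)) (h c c')

/-- The operator with given matrix entries. -/
noncomputable def ofMat (M : ι → ι → (H →L[ℂ] H)) : KK ι H →L[ℂ] KK ι H :=
  ∑ c, ∑ c', inj H c ∘L M c c' ∘L pr H c'

omit [CompleteSpace H] in
theorem ofMat_apply (M : ι → ι → (H →L[ℂ] H)) (k : KK ι H) (c : ι) :
    (ofMat M k) c = ∑ c', M c c' (k c') := by
  have h1 : ofMat M k = ∑ c, ∑ c', inj H c (M c c' (k c')) := by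
    unfold ofMat
    rw [_root_.sum_apply]
    apply Finset.sum_congr rfl
    intro c _
    rw [_root_.sum_apply]
    rfl
  have h2 : pr H c (ofMat M k) = ∑ c', M c c' (k c') := by
    rw [h1, map_sum, Finset.sum_eq_single c]
    · rw [map_sum]
      apply Finset.sum_congr rfl
      intro c' _
      rw [pr_inj, if_pos rfl]
    · intro d _ hd
      rw [map_sum]
      apply Finset.sum_eq_zero
      intro c' _
      rw [pr_inj, if_neg hd.symm]
    · intro h
      exact absurd (Finset.mem_univ _) h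
  exact h2

omit [CompleteSpace H] in
theorem ent_ofMat (M : ι → ι → (H →L[ℂ] H)) (c c' : ι) : ent (ofMat M) c c' = M c c' := by
  ext h
  rw [ent_apply, ofMat_apply, Finset.sum_eq_single c']
  · rw [inj_apply, if_pos rfl]
  · intro d _ hd
    rw [inj_apply, if_neg hd, map_zero]
  · intro h
    exact absurd (Finset.mem_univ _) h

/-- The operators with all entries in a subalgebra. -/
noncomputable def matAlg (ι : Type*) [Fintype ι] [DecidableEq ι]
    (B : Subalgebra ℂ (H →L[ℂ] H)) (hB : ∀ x ∈ B, star x ∈ B) :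
    StarSubalgebra ℂ (KK ι H →L[ℂ] KK ι H) where
  carrier := {T | ∀ c c', ent T c c' ∈ B}
  mul_mem' := by
    intro S T hS hT c c'
    rw [ent_mul]
    exact Subalgebra.sum_mem _ fun d _ => B.mul_mem (hS _ _) (hT _ _)
  add_mem' := by
    intro S T hS hT c c'
    rw [ent_add]
    exact B.add_mem (hS _ _) (hT _ _)
  algebraMap_mem' := by
    intro r c c'
    rw [ent_algebraMap]
    split_ifs
    · exact B.algebraMap_mem r
    · exact B.zero_mem
  star_mem' := by
    intro T hT c c'
    rw [ent_star]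
    exact hB _ (hT _ _)

theorem mem_matAlg {B : Subalgebra ℂ (H →L[ℂ] H)} {hB : ∀ x ∈ B, star x ∈ B}
    {T : KK ι H →L[ℂ] KK ι H} : T ∈ matAlg ι B hB ↔ ∀ c c', ent T c c' ∈ B := Iff.rfl

theorem matAlg_closed {B : Subalgebra ℂ (H →L[ℂ] H)} {hB : ∀ x ∈ B, star x ∈ B}
    (hc : IsClosed (B : Set (H →L[ℂ] H))) :
    IsClosed (matAlg ι B hB : Set (KK ι H →L[ℂ] KK ι H)) := by
  have : (matAlg ι B hB : Set (KK ι H →L[ℂ] KK ι H)) =
      ⋂ c, ⋂ c', (fun T => ent T c c') ⁻¹' (B : Set (H →L[ℂ] H)) := by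
    ext T
    simp only [Set.mem_iInter, Set.mem_preimage, SetLike.mem_coe, mem_matAlg]
  rw [this]
  exact isClosed_iInter fun c => isClosed_iInter fun c' => hc.preimage (ent_continuous c c')

theorem exists_contraction_mem {B : Subalgebra ℂ (H →L[ℂ] H)} (hB : ∀ x ∈ B, star x ∈ B)
    (hc : IsClosed (B : Set (H →L[ℂ] H))) (δ : KK ι H →L[ℂ] KK ι H) (hδ : δ ∈ matAlg ι B hB)
    (h3 : δ * δ = 0) (hex : ∀ y, δ y = 0 → ∃ z, δ z = y) :
    ∃ k ∈ matAlg ι B hB, δ * k + k * δ = 1 := by
  have e1 : (1 : KK ι H →L[ℂ] KK ι H).adjoint = 1 := by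
    symm; rw [eq_adjoint_iff]; simp
  have hu := hodge_isUnit (1 : KK ι H →L[ℂ] KK ι H) δ (one_mul _) e1 (one_mul _) (mul_one _) h3
    (fun y _ hy => hex y hy)
  rw [sub_self, add_zero] at hu
  have hstar : star δ ∈ matAlg ι B hB := star_mem hδ
  have hL : δ + star δ ∈ matAlg ι B hB := add_mem hδ hstar
  have : IsClosed (matAlg ι B hB : Set (KK ι H →L[ℂ] KK ι H)) := matAlg_closed hc
  have hu2 : IsUnit (⟨δ + star δ, hL⟩ : matAlg ι B hB) :=
    (StarSubalgebra.coe_isUnit (matAlg ι B hB)).mp hu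
  obtain ⟨l, hl⟩ := hu2
  set L : KK ι H →L[ℂ] KK ι H := δ + star δ with hLdef
  obtain ⟨l', hl'mem⟩ : ∃ l' : matAlg ι B hB, l' = ((l⁻¹ : (matAlg ι B hB)ˣ) : matAlg ι B hB) :=
    ⟨_, rfl⟩
  have i1 : L * (l' : KK ι H →L[ℂ] KK ι H) = 1 := by
    have h : (l : matAlg ι B hB) * l' = 1 := by rw [hl'mem]; exact l.mul_inv
    rw [hl] at h
    exact congrArg Subtype.val h
  have i2 : (l' : KK ι H →L[ℂ] KK ι H) * L = 1 := by
    have h : l' * (l : matAlg ι B hB) = 1 := by rw [hl'mem]; exact l.inv_mul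
    rw [hl] at h
    exact congrArg Subtype.val h
  have h3' : star δ * star δ = 0 := by
    rw [← star_mul, h3]
    exact map_zero (ContinuousLinearMap.adjoint (𝕜 := ℂ) (E := KK ι H) (F := KK ι H))
  have hLL : L * L = δ * star δ + star δ * δ := by
    rw [hLdef]
    calc (δ + star δ) * (δ + star δ) = δ * δ + δ * star δ + star δ * δ + star δ * star δ := by
          noncomm_ring
      _ = _ := by rw [h3, h3', zero_add, add_zero]
  have hcomm : L * L * δ = δ * (L * L) := by
    rw [hLL]
    calc (δ * star δ + star δ * δ) * δ = δ * star δ * δ + star δ * (δ * δ) := by noncomm_ring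
      _ = δ * star δ * δ + (δ * δ) * star δ := by rw [h3]; noncomm_ring
      _ = δ * (δ * star δ + star δ * δ) := by noncomm_ring
  set m : KK ι H →L[ℂ] KK ι H := (l' : KK ι H →L[ℂ] KK ι H) * l' with hm
  have j1 : L * L * m = 1 := by
    calc L * L * m = L * (L * l') * l' := by rw [hm]; noncomm_ring
      _ = 1 := by rw [i1, mul_one, i1]
  have j2 : m * (L * L) = 1 := by
    calc m * (L * L) = l' * (l' * L) * L := by rw [hm]; noncomm_ring
      _ = 1 := by rw [i2, mul_one, i2]
  have j3 : m * δ = δ * m := by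
    calc m * δ = m * δ * (L * L * m) := by rw [j1, mul_one]
      _ = m * (δ * (L * L)) * m := by noncomm_ring
      _ = (m * (L * L)) * δ * m := by rw [← hcomm]; noncomm_ring
      _ = δ * m := by rw [j2, one_mul]
  refine ⟨star δ * m, mul_mem hstar (mul_mem l'.2 l'.2), ?_⟩
  calc δ * (star δ * m) + star δ * m * δ = δ * star δ * m + star δ * (m * δ) := by noncomm_ring
    _ = (δ * star δ + star δ * δ) * m := by rw [j3]; noncomm_ring
    _ = 1 := by rw [← hLL, j1]

end mat

section star

variable {Γ : Type*} [Group Γ] {H : Type*} [NormedAddCommGroup H] [InnerProductSpace ℂ H]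
  [CompleteSpace H] {b : HilbertBasis Γ ℂ H} {lam : Γ →* (H →L[ℂ] H)}

theorem lam_star (hlam : ∀ g h, lam g (b h) = b (g * h)) (g : Γ) : star (lam g) = lam g⁻¹ := by
  show (lam g).adjoint = lam g⁻¹
  symm
  rw [eq_adjoint_iff]
  intro x y
  rw [← b.repr.inner_map_map, ← b.repr.inner_map_map, lp.inner_eq_tsum, lp.inner_eq_tsum,
    ← (Equiv.mulLeft g⁻¹).tsum_eq]
  apply tsum_congr
  intro z
  rw [reg_repr hlam, reg_repr hlam, Equiv.coe_mulLeft, inv_inv, mul_inv_cancel_left]

theorem CRed_star (hlam : ∀ g h, lam g (b h) = b (g * h)) (x : H →L[ℂ] H) (hx : x ∈ CRed lam) :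
    star x ∈ CRed lam := by
  have h1 : ∀ a : MonoidAlgebra ℂ Γ, ∃ a' : MonoidAlgebra ℂ Γ,
      MonoidAlgebra.lift ℂ (H →L[ℂ] H) Γ lam a' =
        star (MonoidAlgebra.lift ℂ (H →L[ℂ] H) Γ lam a) := by
    intro a
    induction a using MonoidAlgebra.induction_linear with
    | zero => exact ⟨0, by simp⟩
    | add f g hf hg =>
      obtain ⟨f', hf'⟩ := hf
      obtain ⟨g', hg'⟩ := hg
      exact ⟨f' + g', by rw [map_add, map_add, star_add, hf', hg']⟩
    | single g r =>
      refine ⟨MonoidAlgebra.single g⁻¹ (star r), ?_⟩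
      rw [MonoidAlgebra.lift_single, MonoidAlgebra.lift_single, star_smul, lam_star hlam]
  have h2 : x ∈ closure ((MonoidAlgebra.lift ℂ (H →L[ℂ] H) Γ lam).range : Set (H →L[ℂ] H)) := hx
  show star x ∈ closure ((MonoidAlgebra.lift ℂ (H →L[ℂ] H) Γ lam).range : Set (H →L[ℂ] H))
  apply map_mem_closure continuous_star h2
  rintro _ ⟨a, rfl⟩
  obtain ⟨a', ha'⟩ := h1 a
  exact ⟨a', ha'⟩

end star

section back

variable {Γ : Type*} [Group Γ] {H : Type*} [NormedAddCommGroup H]
  [InnerProductSpace ℂ H] [CompleteSpace H] {b : HilbertBasis Γ ℂ H} {lam : Γ →* (H →L[ℂ] H)}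

theorem lift_mem_CRed (a : MonoidAlgebra ℤ Γ) :
    MonoidAlgebra.lift ℤ (H →L[ℂ] H) Γ lam a ∈ CRed lam := by
  rw [← coe_toCRed']
  exact (toCRed lam a).2

theorem repr_lift (R : FreeRes Γ) (hlam : ∀ g h, lam g (b h) = b (g * h)) (m : R.cell → H) (c : R.cell) (x : Γ) :
    b.repr (∑ c', MonoidAlgebra.lift ℤ (H →L[ℂ] H) Γ lam (R.bd c c') (m c')) x =
      ∑ c', ∑ g ∈ (R.bdC c c').coeff.support,
        (R.bdC c c').coeff g * b.repr (m c') (g⁻¹ * x) := by
  rw [map_sum, lp.coeFn_sum, Finset.sum_apply]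
  apply Finset.sum_congr rfl
  intro c' _
  rw [← coe_toCRed', FreeRes.coe_toCRed, algRep_apply hlam]
  rfl

theorem exact_of_hhExact (R : FreeRes Γ) (hlam : ∀ g h, lam g (b h) = b (g * h))
    (hex : HHExact (R.toCx (MonoidHom.id Γ))) (y : R.cell → H)
    (hy : ∀ c, ∑ c', MonoidAlgebra.lift ℤ (H →L[ℂ] H) Γ lam (R.bd c c') (y c') = 0) :
    ∃ z : R.cell → H,
      ∀ c, ∑ c', MonoidAlgebra.lift ℤ (H →L[ℂ] H) Γ lam (R.bd c c') (z c') = y c := by
  have hex' : ∀ u : (Γ × R.cell →₀ ℂ) →ₗ[ℂ] ℂ, HH (prep (lact Γ R.cell)) u →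
      (∀ v : Γ × R.cell →₀ ℂ, u (mbd R.bdC v) = 0) →
      ∃ t : (Γ × R.cell →₀ ℂ) →ₗ[ℂ] ℂ, HH (prep (lact Γ R.cell)) t ∧
        ∀ v : Γ × R.cell →₀ ℂ, u v = t (mbd R.bdC v) := hex
  let u : (Γ × R.cell →₀ ℂ) →ₗ[ℂ] ℂ :=
    Finsupp.linearCombination ℂ (fun p : Γ × R.cell => b.repr (y p.2) p.1⁻¹)
  have hu : ∀ x c, u (Finsupp.single (x, c) 1) = b.repr (y c) x⁻¹ := by
    intro x c
    simp [u]
  obtain ⟨w, hw, hw2⟩ := hex' u
    (by
      apply HH_of_basis
      rintro ⟨x, c⟩
      simp only [lact_apply, hu]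
      have h1 : Function.Injective (fun g : Γ => (g * x)⁻¹) := by
        intro a b hab
        simpa using hab
      exact (FreeRes.summable_L2 (b.repr (y c))).comp_injective h1)
    (by
      have key : u ∘ₗ mbd R.bdC = 0 := by
        apply Finsupp.lhom_ext'
        rintro ⟨x, c⟩
        ext
        simp only [LinearMap.coe_comp, Function.comp_apply, Finsupp.lsingle_apply,
          LinearMap.zero_apply]
        rw [mbd_single, map_sum]
        have h1 := repr_lift R hlam y c x⁻¹
        rw [hy c, map_zero, lp.coeFn_zero, Pi.zero_apply] at h1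
        rw [h1]
        apply Finset.sum_congr rfl
        intro c' _
        rw [map_sum]
        apply Finset.sum_congr rfl
        intro g _
        rw [map_smul, hu, smul_eq_mul, one_mul, mul_inv_rev]
      intro v
      exact congrArg (fun T => T v) key)
  have hs : ∀ c, Summable fun g : Γ => ‖w (Finsupp.single (g⁻¹, c) 1)‖ ^ 2 := by
    intro c
    have h1 := (hw (Finsupp.single ((1 : Γ), c) 1)).comp_injective (inv_injective (G := Γ))
    refine h1.congr ?_
    intro g
    simp only [Function.comp_apply]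
    rw [prep_single, lact_apply, mul_one]
  let z0 : R.cell → L2 Γ := fun c =>
    ⟨fun g => w (Finsupp.single (g⁻¹, c) 1), FreeRes.memL2_of (hs c)⟩
  let z : R.cell → H := fun c => b.repr.symm (z0 c)
  have hz : ∀ c g, b.repr (z c) g = w (Finsupp.single (g⁻¹, c) 1) := by
    intro c g
    show b.repr (b.repr.symm (z0 c)) g = _
    rw [LinearIsometryEquiv.apply_symm_apply]
  refine ⟨z, ?_⟩
  intro c
  apply b.repr.injective
  ext x
  rw [repr_lift R hlam]
  have h1 := hw2 (Finsupp.single (x⁻¹, c) 1)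
  rw [hu, inv_inv, mbd_single, map_sum] at h1
  rw [h1]
  apply Finset.sum_congr rfl
  intro c' _
  rw [map_sum]
  apply Finset.sum_congr rfl
  intro g _
  rw [map_smul, smul_eq_mul, hz, one_mul, mul_inv_rev, inv_inv]

theorem not_homologyNonzero (R : FinRes Γ) (hlam : ∀ g h, lam g (b h) = b (g * h))
    (hex : HHExact (R.toFreeRes.toCx (MonoidHom.id Γ))) (i : ℕ) :
    ¬ HomologyNonzero R lam i := by
  classical
  rintro ⟨x, hx1, hx2, hx3, hx4⟩
  apply hx4
  set M : R.cell → R.cell → (H →L[ℂ] H) :=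
    fun c c' => MonoidAlgebra.lift ℤ (H →L[ℂ] H) Γ lam (R.bd c c') with hM
  have hB : ∀ x ∈ CRed lam, star x ∈ CRed lam := CRed_star hlam
  have hc : IsClosed (CRed lam : Set (H →L[ℂ] H)) :=
    Subalgebra.isClosed_topologicalClosure _
  have hδ : ofMat M ∈ matAlg R.cell (CRed lam) hB := by
    intro c c'
    rw [ent_ofMat]
    exact lift_mem_CRed _
  have hδδ : ofMat M * ofMat M = 0 := by
    apply ent_ext
    intro c c''
    rw [ent_mul]
    simp only [ent_ofMat, hM]
    simp only [← map_mul, ← map_sum, R.bd_bd, map_zero]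
    ext h
    rfl
  obtain ⟨k, hk, hk2⟩ := exists_contraction_mem hB hc (ofMat M) hδ hδδ (by
    intro y hy
    have h1 : ∀ c, ∑ c', M c c' (y c') = 0 := by
      intro c
      rw [← ofMat_apply, hy]
      rfl
    obtain ⟨z, hz⟩ := exact_of_hhExact R.toFreeRes hlam hex (fun c => y c) h1
    refine ⟨WithLp.toLp 2 z, ?_⟩
    ext c
    exact (ofMat_apply M (WithLp.toLp 2 z) c).trans (hz c))
  have hk3 : ∀ c c'', ∑ c', M c c' * ent k c' c'' + ∑ c', ent k c c' * M c' c'' =
      if c = c'' then 1 else 0 := by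
    intro c c''
    have h1 := congrArg (fun T => ent T c c'') hk2
    simp only [ent_add, ent_mul, ent_ofMat, ent_one] at h1
    exact h1
  have hY : ∀ c'', ∑ c', (∑ c, x c * ent k c c') * M c' c'' = x c'' := by
    intro c''
    calc ∑ c', (∑ c, x c * ent k c c') * M c' c''
        = ∑ c, x c * ∑ c', ent k c c' * M c' c'' := by
          simp only [Finset.sum_mul, Finset.mul_sum, mul_assoc]
          rw [Finset.sum_comm]
      _ = ∑ c, x c * ((if c = c'' then 1 else 0) - ∑ c', M c c' * ent k c' c'') := by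
          apply Finset.sum_congr rfl
          intro c _
          rw [← hk3 c c'', add_sub_cancel_left]
      _ = x c'' - ∑ c', (∑ c, x c * M c c') * ent k c' c'' := by
          simp only [mul_sub, Finset.sum_sub_distrib, Finset.sum_mul, Finset.mul_sum, mul_assoc]
          congr 1
          · simp
          · rw [Finset.sum_comm]
      _ = x c'' := by
          rw [Finset.sum_eq_zero, sub_zero]
          intro c' _
          rw [hx3, zero_mul]
  refine ⟨fun c' => if R.dim c' = i + 1 then ∑ c, x c * ent k c c' else 0, ?_, ?_, ?_⟩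
  · intro c'
    show (if R.dim c' = i + 1 then ∑ c, x c * ent k c c' else 0) ∈ CRed lam
    split_ifs
    · exact Subalgebra.sum_mem _ fun c _ => (CRed lam).mul_mem (hx1 c) (hk c c')
    · exact (CRed lam).zero_mem
  · intro c' hc'
    beta_reduce
    rw [if_neg hc']
  · intro c''
    by_cases hd : R.dim c'' = i
    · rw [← hY c'']
      apply Finset.sum_congr rfl
      intro c' _
      by_cases h0 : R.bd c' c'' = 0
      · simp only [hM, h0, map_zero, mul_zero]
      · have h1 := R.bd_dim c' c'' h0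
        beta_reduce
        rw [if_pos (by omega)]
    · rw [hx2 c'' hd]
      apply Finset.sum_eq_zero
      intro c' _
      by_cases h0 : R.bd c' c'' = 0
      · rw [h0, map_zero, mul_zero]
      · have h1 := R.bd_dim c' c'' h0
        beta_reduce
        rw [if_neg (by omega), zero_mul]

end back

end Pool.Agent.Lib.P9f173dT
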