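import Pool.Agent.Lib.P9f173dT.Fam
import Pool.Agent.Lib.P9f173dT.Tree

/-!
The choice of group elements moving the branches at a vertex, and of homotopies.
-/

namespace Pool.Agent.Lib.P9f173dT

open Pool.Agent.Lib.P9f173d LinearMap

section htpy

variable {G : Type*} [Group G] (R : FreeRes G)

/-- The translation operators, as elements of the endomorphism ring. -/
noncomputable def tr (g : G) : Module.End ℂ (G × R.cell →₀ ℂ) := prep (lact G R.cell) g

theorem tr_apply (g : G) (m : G × R.cell →₀ ℂ) : tr R g m = prep (lact G R.cell) g m := rfl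

theorem tr_mul (g h : G) : tr R (g * h) = tr R g * tr R h := map_mul _ g h

theorem tr_one : tr R (1 : G) = 1 := map_one _

theorem exists_htpy (q : G) (L : Subgroup G) (hL : ∀ l ∈ L, l * q = q * l) :
    ∃ h : Module.End ℂ (G × R.cell →₀ ℂ), (∀ l ∈ L, h * tr R l = tr R l * h) ∧
      ∀ m, mbd R.bdC (h m) + h (mbd R.bdC m) = tr R q m - m := by
  have key := Cx.exists_homotopy (C := R.toCx L.subtype) (D := R.toCx L.subtype)
    (R.toCx_proj L.subtype (Subgroup.subtype_injective L)) (R.toCx_exact L.subtype)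
    (φ := (tr R q - 1 : Module.End ℂ (G × R.cell →₀ ℂ)))
    (by
      intro l m
      change G × R.cell →₀ ℂ at m
      show tr R q (tr R (l : G) m) - tr R (l : G) m = tr R (l : G) (tr R q m - m)
      have h1 : tr R q (tr R (l : G) m) = tr R (l : G) (tr R q m) := by
        have h2 : tr R q * tr R (l : G) = tr R (l : G) * tr R q := by
          rw [← tr_mul, ← tr_mul, hL l l.2]
        exact congrArg (fun T : Module.End ℂ (G × R.cell →₀ ℂ) => T m) h2
      rw [h1, map_sub])
    (by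
      intro m
      change G × R.cell →₀ ℂ at m
      show mbd R.bdC (tr R q m - m) = tr R q (mbd R.bdC m) - mbd R.bdC m
      rw [map_sub, tr_apply, tr_apply, mbd_eqv])
    (by
      intro m
      change G × R.cell →₀ ℂ at m
      show augm (fun c => (R.aug c : ℂ)) (tr R q m - m) = 0
      rw [map_sub, tr_apply, augm_eqv, sub_self])
    (by
      intro k m
      change G × R.cell →₀ ℂ at m
      show tr R q (gpr R.dim k m) - gpr R.dim k m = gpr R.dim k (tr R q m - m)
      rw [map_sub, tr_apply, tr_apply, gpr_eqv])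
  obtain ⟨h, h1, h2⟩ := key
  refine ⟨h, ?_, ?_⟩
  · intro l hl
    apply LinearMap.ext
    intro m
    exact h1 ⟨l, hl⟩ m
  · intro m
    exact h2 m

/-- Conjugation of pairs. -/
noncomputable def cj (g : G) (p : G × Module.End ℂ (G × R.cell →₀ ℂ)) :
    G × Module.End ℂ (G × R.cell →₀ ℂ) :=
  (g * p.1 * g⁻¹, tr R g * p.2 * tr R g⁻¹)

theorem cj_mul (g h : G) (p : G × Module.End ℂ (G × R.cell →₀ ℂ)) :
    cj R (g * h) p = cj R g (cj R h p) := by
  unfold cj
  rw [mul_inv_rev, tr_mul, tr_mul]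
  simp only [mul_assoc]

theorem cj_eq_self {g : G} {p : G × Module.End ℂ (G × R.cell →₀ ℂ)} (h1 : g * p.1 = p.1 * g)
    (h2 : p.2 * tr R g = tr R g * p.2) : cj R g p = p := by
  unfold cj
  rw [h1, ← h2, mul_assoc, mul_assoc, ← tr_mul, mul_inv_cancel, tr_one, mul_one, mul_one]

end htpy

section choice

variable {G V : Type*} [Group G] [MulAction G V] (R : FreeRes G)

theorem exists_choice {T : SimpleGraph V} (hT : T.IsTree)
    (hadj : ∀ (g : G) (v v' : V), T.Adj v v' → T.Adj (g • v) (g • v')) {w : V} {nb : V → V}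
    (hnb : Dir T G w nb) (R₀ : Finset V)
    (hR₀ : ∀ γ : G, ∃ k : G, k • w = w ∧ k • nb (γ • w) ∈ R₀)
    (hq : ∀ e, T.Adj w e → ∃ q : G, T.dist w (q • w) < T.dist e (q • e) ∧
      (Subgroup.centralizer {q}).relIndex
        (MulAction.stabilizer G w ⊓ MulAction.stabilizer G e) ≠ 0) :
    ∃ (q : V → G) (η : V → Module.End ℂ (G × R.cell →₀ ℂ)),
      (∀ e, T.Adj w e → T.dist w (q e • w) < T.dist e (q e • e)) ∧
      (∀ e, T.Adj w e → ∀ m, mbd R.bdC (η e m) + η e (mbd R.bdC m) = tr R (q e) m - m) ∧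
      (∃ M : ℕ, ∀ v ∈ MulAction.orbit G w, ∀ (δ : G) (A : Finset G),
        (∀ γ ∈ A, γ • v ≠ w ∧ q (nb (γ • v)) * γ = δ) → A.card ≤ M) ∧
      ∀ s : (G × R.cell →₀ ℂ) →ₗ[ℂ] ℂ, HK (prep (lact G R.cell)) (MulAction.stabilizer G w) s →
        ∀ e, T.Adj w e → ∀ m, Summable fun k : MulAction.stabilizer G w =>
          ‖s (η ((k : G) • e) (prep (lact G R.cell) k m))‖ ^ 2 := by
  classical
  have hN : ∀ g : G, g • w = w → ∀ e, T.Adj w e → T.Adj w (g • e) := by
    intro g hg e he
    have := hadj g _ _ he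
    rwa [hg] at this
  -- the local choices
  have h1 : ∀ e : V, ∃ p : G × Module.End ℂ (G × R.cell →₀ ℂ), T.Adj w e →
      (T.dist w (p.1 • w) < T.dist e (p.1 • e) ∧ (Subgroup.centralizer {p.1}).relIndex
        (MulAction.stabilizer G w ⊓ MulAction.stabilizer G e) ≠ 0 ∧
        (∀ l : G, l * p.1 = p.1 * l → l • w = w → l • e = e → p.2 * tr R l = tr R l * p.2) ∧
        ∀ m, mbd R.bdC (p.2 m) + p.2 (mbd R.bdC m) = tr R p.1 m - m) := by
    intro e
    by_cases he : T.Adj w e
    · obtain ⟨q, a1, a3⟩ := hq e he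
      obtain ⟨h, b1, b2⟩ := exists_htpy R q (Subgroup.centralizer {q} ⊓
        (MulAction.stabilizer G w ⊓ MulAction.stabilizer G e)) (by
          intro l hl
          exact Subgroup.mem_centralizer_singleton_iff.mp hl.1)
      refine ⟨(q, h), fun _ => ⟨a1, a3, ?_, b2⟩⟩
      intro l c1 c2 c3
      exact b1 l ⟨Subgroup.mem_centralizer_singleton_iff.mpr c1, c2, c3⟩
    · exact ⟨(1, 0), fun h => absurd h he⟩
  choose p₀ hp₀ using h1
  -- orbit representatives
  let a : MulAction.stabilizer G w →* Equiv.Perm V :=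
    MulAction.toPermHom (MulAction.stabilizer G w) V
  have ha : ∀ k : MulAction.stabilizer G w, ∀ v, a k v = (k : G) • v := fun k v => rfl
  let o : V → V := orep a
  have ho1 : ∀ g : G, g • w = w → ∀ v, o (g • v) = o v := by
    intro g hg v
    exact orep_act a ⟨g, hg⟩ v
  have ho2 : ∀ v, ∃ k : G, k • w = w ∧ k • o v = v := by
    intro v
    obtain ⟨k, hk⟩ := exists_orep a v
    have hk' : (k : G) • v = o v := hk
    refine ⟨(k : G)⁻¹, ?_, ?_⟩
    · rw [inv_smul_eq_iff]
      exact k.2.symm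
    · rw [← hk', inv_smul_smul]
  have ho3 : ∀ v, o (o v) = o v := by
    intro v
    obtain ⟨k, hk1, hk2⟩ := ho2 v
    have := ho1 k hk1 (o v)
    rw [hk2] at this
    exact this.symm
  have hinv : ∀ {g : G}, g • w = w → g⁻¹ • w = w := by
    intro g hg
    rw [inv_smul_eq_iff, hg]
  have hoN : ∀ e, T.Adj w e → T.Adj w (o e) := by
    intro e he
    obtain ⟨k, hk1, hk2⟩ := ho2 e
    have h2 : o e = k⁻¹ • e := by rw [eq_inv_smul_iff, hk2]
    rw [h2]
    exact hN _ (hinv hk1) e he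
  -- the sets of pairs
  let P : V → Set (G × Module.End ℂ (G × R.cell →₀ ℂ)) := fun e =>
    {p | ∃ k : G, k • w = w ∧ k • o e = e ∧ p = cj R k (p₀ (o e))}
  have hPne : ∀ e, (P e).Nonempty := by
    intro e
    obtain ⟨k, hk1, hk2⟩ := ho2 e
    exact ⟨_, k, hk1, hk2, rfl⟩
  have hPcj : ∀ g : G, g • w = w → ∀ e, ∀ p ∈ P e, cj R g p ∈ P (g • e) := by
    rintro g hg e _ ⟨k, hk1, hk2, rfl⟩
    refine ⟨g * k, ?_, ?_, ?_⟩
    · rw [mul_smul, hk1, hg]
    · rw [ho1 g hg, mul_smul, hk2]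
    · rw [ho1 g hg, cj_mul]
  have hPfin : ∀ e, T.Adj w e → (P e).Finite := by
    intro e he
    obtain ⟨_, c3, c4, _⟩ := hp₀ (o e) (hoN e he)
    obtain ⟨k₀, hk1, hk2⟩ := ho2 e
    set S : Subgroup G := MulAction.stabilizer G w ⊓ MulAction.stabilizer G (o e) with hS
    set L : Subgroup S := (Subgroup.centralizer {(p₀ (o e)).1}).subgroupOf S with hL
    have hLfin : L.FiniteIndex := ⟨c3⟩
    have hfin : Finite (S ⧸ L) := inferInstance
    apply (Set.finite_range (fun x : S ⧸ L => cj R (k₀ * (x.out : G)) (p₀ (o e)))).subset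
    rintro _ ⟨k, hk3, hk4, rfl⟩
    have hs1 : (k₀⁻¹ * k) • w = w := by rw [mul_smul, hk3, hinv hk1]
    have hs2 : (k₀⁻¹ * k) • o e = o e := by
      rw [mul_smul, hk4, inv_smul_eq_iff, hk2]
    let x : S := ⟨k₀⁻¹ * k, hs1, hs2⟩
    refine ⟨QuotientGroup.mk x, ?_⟩
    have h2 : (QuotientGroup.mk x : S ⧸ L) =
        QuotientGroup.mk ((QuotientGroup.mk x : S ⧸ L).out) := (QuotientGroup.out_eq' _).symm
    rw [QuotientGroup.eq] at h2
    set y : S := (QuotientGroup.mk x : S ⧸ L).out with hy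
    have h3 : ((x⁻¹ * y : S) : G) ∈ Subgroup.centralizer {(p₀ (o e)).1} := h2
    rw [Subgroup.mem_centralizer_singleton_iff] at h3
    have h4 := (x⁻¹ * y).2
    have h5 : cj R ((x⁻¹ * y : S) : G) (p₀ (o e)) = p₀ (o e) := by
      apply cj_eq_self R h3
      exact c4 _ h3 h4.1 h4.2
    have h6 : k₀ * (y : G) = k * ((x⁻¹ * y : S) : G) := by
      simp only [x, Subgroup.coe_mul, Subgroup.coe_inv]
      group
    show cj R (k₀ * (y : G)) (p₀ (o e)) = cj R k (p₀ (o e))
    rw [h6, cj_mul, h5]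
  have hPprop : ∀ e, T.Adj w e → ∀ p ∈ P e, T.dist w (p.1 • w) < T.dist e (p.1 • e) ∧
      ∀ m, mbd R.bdC (p.2 m) + p.2 (mbd R.bdC m) = tr R p.1 m - m := by
    rintro e he _ ⟨k, hk1, hk2, rfl⟩
    obtain ⟨c1, _, _, c5⟩ := hp₀ (o e) (hoN e he)
    have h2 : k⁻¹ • e = o e := by rw [inv_smul_eq_iff, hk2]
    refine ⟨?_, ?_⟩
    · show T.dist w ((k * (p₀ (o e)).1 * k⁻¹) • w) < T.dist e ((k * (p₀ (o e)).1 * k⁻¹) • e)
      rw [mul_smul, mul_smul, hinv hk1, mul_smul, mul_smul, h2]
      have e1 := dist_smul hT hadj k w ((p₀ (o e)).1 • w)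
      have e2 := dist_smul hT hadj k (o e) ((p₀ (o e)).1 • o e)
      rw [hk1] at e1
      rw [hk2] at e2
      rw [e1, e2]
      exact c1
    · intro m
      have h3 : ∀ g : G, ∀ m, mbd R.bdC (tr R g m) = tr R g (mbd R.bdC m) := by
        intro g m
        rw [tr_apply, tr_apply, mbd_eqv]
      show mbd R.bdC (tr R k ((p₀ (o e)).2 (tr R k⁻¹ m))) +
        tr R k ((p₀ (o e)).2 (tr R k⁻¹ (mbd R.bdC m))) =
        tr R (k * (p₀ (o e)).1 * k⁻¹) m - m
      rw [h3, ← h3 k⁻¹, ← map_add, c5, map_sub, tr_mul, tr_mul]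
      have h4 : tr R k (tr R k⁻¹ m) = m := by
        have : tr R k * tr R k⁻¹ = 1 := by rw [← tr_mul, mul_inv_cancel, tr_one]
        exact congrArg (fun T : Module.End ℂ (G × R.cell →₀ ℂ) => T m) this
      rw [h4]
      rfl
  -- the choice
  choose p hp using hPne
  refine ⟨fun e => (p e).1, fun e => (p e).2, fun e he => (hPprop e he _ (hp e)).1,
    fun e he => (hPprop e he _ (hp e)).2, ?_, ?_⟩
  · -- the multiplicity
    let n : V → ℕ := fun r => if h : (P r).Finite then h.toFinset.card else 0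
    refine ⟨∑ r ∈ R₀.image o, n r, ?_⟩
    rintro v ⟨gv, rfl⟩ δ A hA
    have hA1 : ∀ γ ∈ A, T.Adj w (nb (γ • gv • w)) := fun γ hγ => hnb.adj _ (hA γ hγ).1
    have hA2 : ∀ γ ∈ A, o (nb (γ • gv • w)) ∈ R₀.image o := by
      intro γ _
      obtain ⟨k, hk1, hk2⟩ := hR₀ (γ * gv)
      rw [mul_smul] at hk2
      rw [← ho1 k hk1]
      exact Finset.mem_image_of_mem _ hk2
    rw [Finset.card_eq_sum_card_fiberwise (t := R₀.image o)
      (f := fun γ => o (nb (γ • gv • w))) hA2]
    apply Finset.sum_le_sum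
    intro r _
    by_cases hne : (A.filter (fun γ => o (nb (γ • gv • w)) = r)).Nonempty
    · obtain ⟨γ₁, hγ₁⟩ := hne
      rw [Finset.mem_filter] at hγ₁
      obtain ⟨hγ₁A, hr₁⟩ := hγ₁
      have hr : T.Adj w r := by rw [← hr₁]; exact hoN _ (hA1 γ₁ hγ₁A)
      have hor : o r = r := by rw [← hr₁, ho3]
      obtain ⟨c1, _, _, _⟩ := hp₀ r hr
      set q₀ : G := (p₀ r).1 with hq₀
      -- description of the elements
      have desc : ∀ γ ∈ A, o (nb (γ • gv • w)) = r → ∃ k : G, k • w = w ∧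
          (p (nb (γ • gv • w))).1 = k * q₀ * k⁻¹ ∧
          T.dist w (δ • gv • w) = T.dist w (k • q₀ • r) + T.dist (k • q₀ • r) (δ • gv • w) ∧
          T.dist w (k • q₀ • r) = T.dist w (q₀ • r) := by
        intro γ hγ hγr
        obtain ⟨k, hk1, hk2, hk3⟩ := hp (nb (γ • gv • w))
        rw [hγr] at hk2 hk3
        have h2 : (p (nb (γ • gv • w))).1 = k * q₀ * k⁻¹ := by
          rw [hk3]
          rfl
        refine ⟨k, hk1, h2, ?_, ?_⟩
        · have h3 := (hPprop _ (hA1 γ hγ) _ (hp (nb (γ • gv • w)))).1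
          have h4 := q_move hT hadj (hA1 γ hγ) h3 (hnb.dist _ (hA γ hγ).1)
          have h5 : (p (nb (γ • gv • w))).1 • γ • gv • w = δ • gv • w := by
            rw [← (hA γ hγ).2, mul_smul]
          have h6 : (p (nb (γ • gv • w))).1 • nb (γ • gv • w) = k • q₀ • r := by
            rw [h2, ← hk2, mul_smul, mul_smul, inv_smul_smul]
          rwa [h5, h6] at h4
        · have := dist_smul hT hadj k w (q₀ • r)
          rwa [hk1] at this
      obtain ⟨k₁, hk₁1, hk₁2, hk₁3, hk₁4⟩ := desc γ₁ hγ₁A hr₁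
      have hfin := hPfin r hr
      have hn : n r = hfin.toFinset.card := by
        simp only [n, dif_pos hfin]
      rw [hn]
      refine le_trans ?_ (Finset.card_image_le (s := hfin.toFinset) (f := Prod.fst))
      apply Finset.card_le_card_of_injOn
        (fun γ => q₀⁻¹ * k₁⁻¹ * (p (nb (γ • gv • w))).1 * k₁ * q₀)
      · intro γ hγ
        rw [Finset.mem_coe, Finset.mem_filter] at hγ
        obtain ⟨k, hk1, hk2, hk3, hk4⟩ := desc γ hγ.1 hγ.2
        have h3 : k • q₀ • r = k₁ • q₀ • r := by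
          apply dist_unique hT hk3 hk₁3
          rw [hk4, hk₁4]
        set h : G := k₁⁻¹ * k with hh
        have hw1 : h • w = w := by rw [hh, mul_smul, hk1, hinv hk₁1]
        have hw2 : h • q₀ • r = q₀ • r := by
          rw [hh, mul_smul, h3, inv_smul_smul]
        have hw3 := q_fix hT hadj hr c1 hw1 hw2
        set d : G := q₀⁻¹ * h * q₀ with hd
        have hd1 : d • w = w := by
          rw [hd, mul_smul, mul_smul, hw3, inv_smul_smul]
        have hd2 : d • r = r := by
          rw [hd, mul_smul, mul_smul, hw2, inv_smul_smul]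
        show q₀⁻¹ * k₁⁻¹ * (p (nb (γ • gv • w))).1 * k₁ * q₀ ∈
          (hfin.toFinset.image Prod.fst : Set G)
        rw [Finset.mem_coe, Finset.mem_image]
        refine ⟨cj R d (p₀ r), ?_, ?_⟩
        · rw [Set.Finite.mem_toFinset]
          exact ⟨d, hd1, by rw [hor, hd2], by rw [hor]⟩
        · show d * q₀ * d⁻¹ = _
          rw [hk2, hd, hh]
          group
      · intro γ hγ γ' hγ' hγγ'
        rw [Finset.mem_coe, Finset.mem_filter] at hγ hγ'
        have h3 : (p (nb (γ • gv • w))).1 = (p (nb (γ' • gv • w))).1 := by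
          have h4 := mul_right_cancel (mul_right_cancel hγγ')
          exact mul_left_cancel h4
        have h4 : (p (nb (γ • gv • w))).1 * γ = δ := (hA γ hγ.1).2
        have h5 : (p (nb (γ' • gv • w))).1 * γ' = δ := (hA γ' hγ'.1).2
        rw [← h5, h3] at h4
        exact mul_left_cancel h4
    · rw [Finset.not_nonempty_iff_eq_empty] at hne
      rw [hne]
      simp
  · intro s hs e he m
    have h4 : Summable fun k : MulAction.stabilizer G w =>
        ∑ p ∈ (hPfin e he).toFinset, ‖s (tr R (k : G) (p.2 m))‖ ^ 2 := by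
      apply summable_sum
      intro p _
      exact hs (p.2 m)
    refine Summable.of_nonneg_of_le (fun γ => by positivity) ?_ h4
    intro k
    have hk : (k : G) • w = w := k.2
    have h5 := hp ((k : G) • e)
    have h6 := hPcj (k : G)⁻¹ (hinv hk) _ _ h5
    rw [inv_smul_smul] at h6
    have h7 : s ((p ((k : G) • e)).2 (prep (lact G R.cell) (k : G) m)) =
        s (tr R (k : G) ((cj R (k : G)⁻¹ (p ((k : G) • e))).2 m)) := by
      congr 1
      show (p ((k : G) • e)).2 (tr R (k : G) m) =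
        tr R (k : G) (tr R (k : G)⁻¹ ((p ((k : G) • e)).2 (tr R (k : G)⁻¹⁻¹ m)))
      rw [inv_inv]
      have h8 : ∀ m, tr R (k : G) (tr R (k : G)⁻¹ m) = m := by
        intro m
        have : tr R (k : G) * tr R (k : G)⁻¹ = 1 := by rw [← tr_mul, mul_inv_cancel, tr_one]
        exact congrArg (fun T : Module.End ℂ (G × R.cell →₀ ℂ) => T m) this
      rw [h8]
    rw [h7]
    exact Finset.single_le_sum (f := fun p : G × Module.End ℂ (G × R.cell →₀ ℂ) =>
      ‖s (tr R (k : G) (p.2 m))‖ ^ 2) (fun p _ => by positivity)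
      ((hPfin e he).mem_toFinset.mpr h6)

end choice

end Pool.Agent.Lib.P9f173dT
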