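import Pool.Agent.Lib.P9f173dT.Fam

/-!
Exactness on square-summable functionals passes to the stabiliser of a point.
-/

namespace Pool.Agent.Lib.P9f173dT

open Pool.Agent.Lib.P9f173d LinearMap

section core

variable {G V : Type*} [Group G] [MulAction G V] (R : FreeRes G)

theorem key_step (hex : HHExact (R.toCx (MonoidHom.id G))) (w : V)
    (H : V → ((G × R.cell →₀ ℂ) →ₗ[ℂ] ℂ))
    (hd : ∀ m v v', Summable fun γ : G =>
      ‖H (γ • v) (prep (lact G R.cell) γ m) - H (γ • v') (prep (lact G R.cell) γ m)‖ ^ 2)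
    (s : (G × R.cell →₀ ℂ) →ₗ[ℂ] ℂ) (hs : ∀ m : G × R.cell →₀ ℂ, s (mbd R.bdC m) = 0)
    (Z : V → ((G × R.cell →₀ ℂ) →ₗ[ℂ] ℂ)) (hZ : Fam (prep (lact G R.cell)) Z)
    (hZe : ∀ v (m : G × R.cell →₀ ℂ), Z v m = s m + H v (mbd R.bdC m)) :
    ∃ τ : (G × R.cell →₀ ℂ) →ₗ[ℂ] ℂ, (∀ m : G × R.cell →₀ ℂ, s m = τ (mbd R.bdC m)) ∧
      Fam (prep (lact G R.cell)) (fun v => H v + τ) := by
  have h1 := fam_sub_rr w H hd
  have h2 := hZ.sub (h1.comp (f := mbd R.bdC) (fun γ m => mbd_eqv R.bdC γ m))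
  have e1 : (fun v => Z v - (H v - rr w H) ∘ₗ mbd R.bdC) =
      fun _ : V => s + rr w H ∘ₗ mbd R.bdC := by
    funext v
    apply LinearMap.ext
    intro m
    simp only [LinearMap.sub_apply, LinearMap.add_apply, LinearMap.comp_apply, hZe]
    ring
  rw [e1] at h2
  have h3 : HH (prep (lact G R.cell)) (s + rr w H ∘ₗ mbd R.bdC) := h2.of_const w
  have hex' : ∀ u : (G × R.cell →₀ ℂ) →ₗ[ℂ] ℂ, HH (prep (lact G R.cell)) u →
      (∀ v : G × R.cell →₀ ℂ, u (mbd R.bdC v) = 0) →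
      ∃ t : (G × R.cell →₀ ℂ) →ₗ[ℂ] ℂ, HH (prep (lact G R.cell)) t ∧
        ∀ v : G × R.cell →₀ ℂ, u v = t (mbd R.bdC v) := hex
  obtain ⟨t, ht, ht2⟩ := hex' (s + rr w H ∘ₗ mbd R.bdC) h3 (by
    intro m
    have h4 : mbd R.bdC (mbd R.bdC m) = 0 := mbd_mbd R.bdC_bdC m
    rw [LinearMap.add_apply, LinearMap.comp_apply, h4, map_zero, hs, add_zero])
  refine ⟨t - rr w H, ?_, ?_⟩
  · intro m
    have h5 : s m + rr w H (mbd R.bdC m) = t (mbd R.bdC m) := ht2 m
    rw [LinearMap.sub_apply, ← h5]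
    ring
  · have h6 := h1.add (Fam.const (V := V) ht)
    convert h6 using 2
    abel

variable {R}

open Classical in
theorem core (hex : HHExact (R.toCx (MonoidHom.id G))) {W : Type*} (w : V) (K : Subgroup G)
    (hK : ∀ g, g ∈ K ↔ g • w = w) (nb : V → W) (N2 : ∀ v, nb v = nb w → v = w)
    (N4 : ∀ v₁ v₂ : V, ∃ F : Finset V, ∀ γ : G, nb (γ • v₁) ≠ nb (γ • v₂) →
      ∃ p ∈ F, γ • p = w)
    (Θ : W → W) (hΘ : ∀ v, v ≠ w → Θ (nb v) ≠ nb v)
    (g : V → G) (η : V → ((G × R.cell →₀ ℂ) →ₗ[ℂ] (G × R.cell →₀ ℂ)))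
    (g1 : ∀ v, v ≠ w → nb (g v • v) = Θ (nb v))
    (g3 : ∀ v, v ≠ w → ∀ m, mbd R.bdC (η v m) + η v (mbd R.bdC m) =
      prep (lact G R.cell) (g v) m - m)
    (g4 : ∀ v : V, ∃ M : ℕ, ∀ (δ : G) (A : Finset G),
      (∀ γ ∈ A, γ • v ≠ w ∧ g (γ • v) * γ = δ) → A.card ≤ M)
    (g6 : ∀ (E : Set W) (s : (G × R.cell →₀ ℂ) →ₗ[ℂ] ℂ)
      (y : V → ((G × R.cell →₀ ℂ) →ₗ[ℂ] ℂ)), nb w ∉ E → (∀ e ∈ E, Θ e ∉ E) →
      Fam (prep (lact G R.cell)) y → (∀ v, nb v ∉ E → y v = s) → ∀ m v v', Summable fun γ : G =>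
      ‖(if nb (γ • v) ∈ E then s ∘ₗ η (γ • v) else 0) (prep (lact G R.cell) γ m) -
        (if nb (γ • v') ∈ E then s ∘ₗ η (γ • v') else 0) (prep (lact G R.cell) γ m)‖ ^ 2)
    (u : (G × R.cell →₀ ℂ) →ₗ[ℂ] ℂ) (hu : HK (prep (lact G R.cell)) K u)
    (hud : ∀ m : G × R.cell →₀ ℂ, u (mbd R.bdC m) = 0) :
    ∃ τ : (G × R.cell →₀ ℂ) →ₗ[ℂ] ℂ, HK (prep (lact G R.cell)) K τ ∧
      ∀ m : G × R.cell →₀ ℂ, u m = τ (mbd R.bdC m) := by
  obtain ⟨c, hc⟩ := exists_colouring Θ
  obtain ⟨E, hE⟩ : ∃ E : Fin 3 → Set W, ∀ i e, e ∈ E i ↔ e ≠ nb w ∧ c e = i ∧ Θ e ≠ e :=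
    ⟨fun i => {e | e ≠ nb w ∧ c e = i ∧ Θ e ≠ e}, fun i e => Iff.rfl⟩
  have hΘE : ∀ i, ∀ e ∈ E i, Θ e ∉ E i := by
    intro i e he h
    rw [hE] at he h
    exact hc e he.2.2 (h.2.1.trans he.2.1.symm)
  have hEw : ∀ i, nb w ∉ E i := by
    intro i h
    rw [hE] at h
    exact h.1 rfl
  have hne : ∀ i v, nb v ∈ E i → v ≠ w := by
    rintro i v h rfl
    exact hEw i h
  -- differences for a functional cut down to branches
  have hcut : ∀ (A : Set W) (s : (G × R.cell →₀ ℂ) →ₗ[ℂ] ℂ), HK (prep (lact G R.cell)) K s →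
      ∀ m v, Summable fun k : K =>
      ‖(if nb ((k : G) • v) ∈ A then s else 0) (prep (lact G R.cell) k m)‖ ^ 2 := by
    intro A s hs m v
    refine Summable.of_nonneg_of_le (fun γ => by positivity) ?_ (hs m)
    intro k
    split_ifs
    · exact le_rfl
    · simp
  -- first step
  have stepA : ∀ i, ∃ s : (G × R.cell →₀ ℂ) →ₗ[ℂ] ℂ,
      (∀ m : G × R.cell →₀ ℂ, s (mbd R.bdC m) = 0) ∧
      Fam (prep (lact G R.cell)) (fun v => s - if nb v ∈ E i then u else 0) := by
    intro i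
    have hd := diff_of_nb (ι := R.cell) w K hK nb N4 (fun v => if nb v ∈ E i then u else 0)
      (by intro v v' h; simp only [h]) (hcut (E i) u hu)
    obtain ⟨τ, h1, h2⟩ := key_step R hex w (fun v => if nb v ∈ E i then u else 0)
      hd 0 (fun m => rfl) (fun _ => 0) Fam.zero
      (by
        intro v m
        split_ifs
        · rw [hud]; simp
        · simp)
    refine ⟨-τ, ?_, ?_⟩
    · intro m
      rw [LinearMap.neg_apply, ← h1]
      simp
    · have h3 := (Fam.zero (V := V) (ρ := prep (lact G R.cell))).sub h2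
      convert h3 using 2
      abel
  -- second step
  have stepB : ∀ i (s : (G × R.cell →₀ ℂ) →ₗ[ℂ] ℂ),
      (∀ m : G × R.cell →₀ ℂ, s (mbd R.bdC m) = 0) →
      Fam (prep (lact G R.cell)) (fun v => s - if nb v ∈ E i then u else 0) →
      ∃ τ : (G × R.cell →₀ ℂ) →ₗ[ℂ] ℂ, (∀ m : G × R.cell →₀ ℂ, s m = τ (mbd R.bdC m)) ∧
        HK (prep (lact G R.cell)) K τ := by
    intro i s hs hy
    have hX := hy.move g {v | nb v ∈ E i} (by
      intro v
      obtain ⟨M, hM⟩ := g4 v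
      refine ⟨M, fun δ A hA => hM δ A fun γ hγ => ?_⟩
      obtain ⟨h1, h2⟩ := hA γ hγ
      exact ⟨hne i _ h1, h2⟩)
    have hx2 := hy.ind {v | nb v ∉ E i}
    have hZ := hX.add hx2
    have hd6 := g6 (E i) s (fun v => s - if nb v ∈ E i then u else 0) (hEw i) (hΘE i) hy (by
      intro v hv
      rw [if_neg hv, sub_zero])
    obtain ⟨τ, h1, h2⟩ := key_step R hex w (fun v => if nb v ∈ E i then s ∘ₗ η v else 0)
      hd6 s hs _ hZ
      (by
        intro v m
        simp only [Set.mem_ofPred_eq, LinearMap.add_apply]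
        by_cases hv : nb v ∈ E i
        · have hv' := hne i v hv
          have h3 : nb (g v • v) ∉ E i := by
            rw [g1 v hv']
            exact hΘE i _ hv
          rw [if_pos hv, if_neg (not_not.mpr hv), if_pos hv, LinearMap.comp_apply, if_neg h3]
          simp only [sub_zero, LinearMap.zero_apply, add_zero, LinearMap.comp_apply]
          have h4 := g3 v hv' m
          have h5 : prep (lact G R.cell) (g v) m =
              m + mbd R.bdC (η v m) + η v (mbd R.bdC m) := by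
            rw [add_assoc, h4]
            abel
          rw [h5, map_add, map_add, hs, add_zero]
        · simp [hv])
    refine ⟨τ, h1, ?_⟩
    have h3 := h2.at w K (fun g hg => (hK g).mp hg)
    simpa only [if_neg (hEw i), zero_add] using h3
  choose s hs1 hs2 using stepA
  choose τ hτ1 hτ2 using fun i => stepB i (s i) (hs1 i) (hs2 i)
  -- third step
  have hY := Fam.sum Finset.univ (fun i => (hs2 i).ind {v | nb v ∈ E i})
  have hZ := hY.sub (Fam.delta hK hu)
  have hd := diff_of_nb (ι := R.cell) w K hK nb N4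
    (fun v => ∑ i, if nb v ∈ E i then τ i else 0) (by intro v v' h; simp only [h]) (by
      intro m v
      have h3 := summable_sq_sum (Finset.univ : Finset (Fin 3))
        (f := fun i (k : K) =>
          (if nb ((k : G) • v) ∈ E i then τ i else 0) (prep (lact G R.cell) k m))
        (fun i _ => hcut (E i) (τ i) (hτ2 i) m v)
      refine h3.congr ?_
      intro k
      rw [LinearMap.sum_apply])
  obtain ⟨τ', h1, h2⟩ := key_step R hex w (fun v => ∑ i, if nb v ∈ E i then τ i else 0)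
    hd (-u) (fun m => by rw [LinearMap.neg_apply, hud, neg_zero]) _ hZ
    (by
      intro v m
      simp only [Set.mem_ofPred_eq, LinearMap.sub_apply, LinearMap.neg_apply]
      by_cases hv : v = w
      · subst hv
        simp only [if_neg (hEw _), if_true, Finset.sum_const_zero, LinearMap.zero_apply]
        ring
      · rw [if_neg hv]
        have hv' : nb v ≠ nb w := fun h => hv (N2 v h)
        have e1 : ∀ f : Fin 3 → ((G × R.cell →₀ ℂ) →ₗ[ℂ] ℂ),
            (∑ i, if nb v ∈ E i then f i else 0) = f (c (nb v)) := by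
          intro f
          rw [Finset.sum_eq_single (c (nb v))]
          · rw [if_pos]
            rw [hE]
            exact ⟨hv', rfl, hΘ v hv⟩
          · intro i _ hi
            rw [if_neg]
            rw [hE]
            rintro ⟨_, h, _⟩
            exact hi h.symm
          · intro h
            exact absurd (Finset.mem_univ _) h
        rw [e1 (fun i => s i - if nb v ∈ E i then u else 0), e1 τ]
        have h3 : nb v ∈ E (c (nb v)) := (hE _ _).mpr ⟨hv', rfl, hΘ v hv⟩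
        rw [if_pos h3, LinearMap.sub_apply, ← hτ1, LinearMap.zero_apply]
        ring)
  refine ⟨-τ', ?_, ?_⟩
  · have h3 := h2.at w K (fun g hg => (hK g).mp hg)
    simp only [if_neg (hEw _), Finset.sum_const_zero, zero_add] at h3
    intro m
    refine (h3 m).congr ?_
    intro k
    rw [LinearMap.neg_apply, norm_neg]
  · intro m
    rw [LinearMap.neg_apply, ← h1, LinearMap.neg_apply, neg_neg]

end core

end Pool.Agent.Lib.P9f173dT
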