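import Pool.Agent.Lib.P9f173dT.Tree
import Pool.Agent.Lib.P9f173d.CStar

/-!
Groups with a finite free resolution are finitely generated; finiteness of the set of directions.
-/

namespace Pool.Agent.Lib.P9f173dT

open Pool.Agent.Lib.P9f173d LinearMap

section fg

variable {G : Type*} [Group G]

theorem exists_deg_zero (C : Cx G) (hC : C.Exact) : ∃ a, C.ε a = 1 ∧ C.d a = 0 := by
  obtain ⟨v, hv⟩ := hC.2
  refine ⟨C.e 0 v, ?_, C.d_e0 v⟩
  rw [← hv]
  conv_rhs => rw [← C.e_sum v]
  rw [map_sum, Finset.sum_eq_single 0]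
  · intro k _ hk
    exact C.ε_e k v hk
  · intro h
    simp at h

theorem exists_closure_eq_top (R : FreeRes G) :
    ∃ S : Finset G, Subgroup.closure (S : Set G) = ⊤ := by
  classical
  -- an element of degree zero and augmentation one
  obtain ⟨a, ha1, ha2⟩ : ∃ a : G × R.cell →₀ ℂ, augm (fun c => (R.aug c : ℂ)) a = 1 ∧
      mbd R.bdC a = 0 :=
    exists_deg_zero (R.toCx (MonoidHom.id G)) (R.toCx_exact (MonoidHom.id G))
  let S : Finset G := (Finset.univ.biUnion fun c : R.cell =>
    Finset.univ.biUnion fun c' : R.cell => (R.bdC c c').coeff.support) ∪ a.support.image Prod.fst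
  refine ⟨S, ?_⟩
  set G₀ : Subgroup G := Subgroup.closure (S : Set G) with hG₀
  have hS : ∀ c c', ∀ h ∈ (R.bdC c c').coeff.support, h ∈ G₀ := by
    intro c c' h hh
    apply Subgroup.subset_closure
    simp only [S, Finset.coe_union, Set.mem_union, Finset.mem_coe, Finset.mem_biUnion,
      Finset.mem_univ, true_and]
    exact Or.inl ⟨c, c', hh⟩
  have ha3 : ∀ p ∈ a.support, p.1 ∈ G₀ := by
    intro p hp
    apply Subgroup.subset_closure
    simp only [S, Finset.coe_union, Set.mem_union, Finset.mem_coe]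
    exact Or.inr (Finset.mem_image_of_mem _ hp)
  rw [eq_top_iff]
  intro g _
  by_contra hg
  let res : (G × R.cell →₀ ℂ) →ₗ[ℂ] (G × R.cell →₀ ℂ) :=
    { toFun := fun m => m.filter (fun p => p.1 ∈ G₀)
      map_add' := fun x y => Finsupp.filter_add
      map_smul' := fun c x => Finsupp.filter_smul }
  have hres : ∀ m, res m = m.filter (fun p => p.1 ∈ G₀) := fun m => rfl
  have hpos : ∀ (x : G) (c : R.cell) (r : ℂ), x ∈ G₀ →
      res (Finsupp.single (x, c) r) = Finsupp.single (x, c) r := by
    intro x c r hx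
    rw [hres]
    exact Finsupp.filter_single_of_pos (fun p : G × R.cell => p.1 ∈ G₀) hx
  have hneg : ∀ (x : G) (c : R.cell) (r : ℂ), x ∉ G₀ →
      res (Finsupp.single (x, c) r) = 0 := by
    intro x c r hx
    rw [hres]
    exact Finsupp.filter_single_of_neg (fun p : G × R.cell => p.1 ∈ G₀) hx
  have hcomm : ∀ m : G × R.cell →₀ ℂ, mbd R.bdC (res m) = res (mbd R.bdC m) := by
    intro m
    induction m using Finsupp.induction_linear with
    | zero => simp
    | add f g hf hg => simp only [map_add, hf, hg]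
    | single p r =>
      obtain ⟨x, c⟩ := p
      rw [mbd_single, map_sum]
      by_cases hx : x ∈ G₀
      · rw [hpos _ _ _ hx, mbd_single]
        apply Finset.sum_congr rfl
        intro c' _
        rw [map_sum]
        apply Finset.sum_congr rfl
        intro h hh
        rw [map_smul, hpos _ _ _ (G₀.mul_mem hx (hS c c' h hh))]
      · rw [hneg _ _ _ hx, map_zero]
        symm
        apply Finset.sum_eq_zero
        intro c' _
        rw [map_sum]
        apply Finset.sum_eq_zero
        intro h hh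
        rw [map_smul, hneg, smul_zero]
        intro hxh
        exact hx ((Subgroup.mul_mem_cancel_right G₀ (hS c c' h hh)).mp hxh)
  have hex : ∀ v : G × R.cell →₀ ℂ, mbd R.bdC v = 0 → augm (fun c => (R.aug c : ℂ)) v = 0 →
      ∃ w : G × R.cell →₀ ℂ, mbd R.bdC w = v := (R.toCx_exact (MonoidHom.id G)).1
  obtain ⟨b, hb⟩ := hex (prep (lact G R.cell) g a - a)
    (by rw [map_sub, mbd_eqv, ha2, map_zero, sub_zero])
    (by rw [map_sub, augm_eqv, sub_self])
  have h1 : res (prep (lact G R.cell) g a) = 0 := by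
    rw [hres]
    ext ⟨x, c⟩
    rw [Finsupp.filter_apply, Finsupp.zero_apply]
    split_ifs with hx
    · rw [prep_lact_apply]
      by_contra h2
      have h3 := ha3 (g⁻¹ * x, c) (Finsupp.mem_support_iff.mpr h2)
      apply hg
      have h4 : g⁻¹ ∈ G₀ := (Subgroup.mul_mem_cancel_right G₀ hx).mp h3
      exact (Subgroup.inv_mem_iff G₀).mp h4
    · rfl
  have h2 : res a = a := by
    rw [hres, Finsupp.filter_eq_self_iff]
    intro p hp
    exact ha3 p (Finsupp.mem_support_iff.mpr hp)
  have h3 := hcomm b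
  rw [hb, map_sub, h1, h2, zero_sub] at h3
  have h4 : augm (fun c => (R.aug c : ℂ)) (mbd R.bdC (res b)) = 0 :=
    (R.toCx (MonoidHom.id G)).ε_d (res b)
  rw [h3, map_neg, ha1] at h4
  norm_num at h4

end fg

section dirs

variable {V : Type*} {T : SimpleGraph V} {G : Type*} [Group G] [MulAction G V]

theorem finite_dirs {w : V} {nb : V → V} (hnb : Dir T G w nb) (S : Finset G)
    (hS : Subgroup.closure (S : Set G) = ⊤) :
    ∃ R₀ : Finset V, ∀ γ : G, ∃ k : G, k • w = w ∧ k • nb (γ • w) ∈ R₀ := by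
  classical
  choose F hF using fun s : G => hnb.cut w (s • w)
  have h1 : ∀ p : V, ∃ g : G, (∃ g' : G, g' • p = w) → g • p = w := by
    intro p
    by_cases h : ∃ g' : G, g' • p = w
    · obtain ⟨g', hg'⟩ := h
      exact ⟨g', fun _ => hg'⟩
    · exact ⟨1, fun h' => absurd h' h⟩
  choose gp hgp using h1
  let S' : Finset G := S ∪ S.image (fun s => s⁻¹)
  let R₀ : Finset V := {w} ∪ S'.biUnion fun s => (F s).image fun p => nb (gp p • s • w)
  refine ⟨R₀, ?_⟩
  have step : ∀ s ∈ S', ∀ γ : G, (∃ k : G, k • w = w ∧ k • nb (γ • w) ∈ R₀) →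
      ∃ k : G, k • w = w ∧ k • nb ((γ * s) • w) ∈ R₀ := by
    intro s hs γ hγ
    rw [mul_smul]
    by_cases h : nb (γ • w) = nb (γ • s • w)
    · rwa [← h]
    · obtain ⟨p, hp, hpw⟩ := hF s γ h
      have h2 := hgp p ⟨γ, hpw⟩
      have hk : (gp p * γ⁻¹) • w = w := by
        rw [mul_smul, ← hpw, inv_smul_smul, h2, hpw]
      refine ⟨gp p * γ⁻¹, hk, ?_⟩
      rw [← hnb.eqv _ hk, mul_smul, inv_smul_smul]
      simp only [R₀, Finset.mem_union, Finset.mem_biUnion, Finset.mem_image]
      exact Or.inr ⟨s, hs, p, hp, rfl⟩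
  intro γ
  have hγ : γ ∈ Subgroup.closure (S : Set G) := by rw [hS]; trivial
  induction hγ using Subgroup.closure_induction_right with
  | one =>
    refine ⟨1, one_smul G w, ?_⟩
    rw [one_smul, one_smul, hnb.base]
    simp [R₀]
  | mul_right x _ y hy ih =>
    exact step y (Finset.mem_union_left _ hy) x ih
  | mul_inv_cancel x _ y hy ih =>
    exact step y⁻¹ (Finset.mem_union_right _ (Finset.mem_image_of_mem _ hy)) x ih

end dirs

end Pool.Agent.Lib.P9f173dT
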