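import Pool.Agent.Lib.P9f173d.CStar

/-!
Square-summable families of functionals indexed by a set with a group action.
-/

namespace Pool.Agent.Lib.P9f173dT

open Pool.Agent.Lib.P9f173d LinearMap

theorem sq_add_le (a b : ℂ) : ‖a + b‖ ^ 2 ≤ 2 * ‖a‖ ^ 2 + 2 * ‖b‖ ^ 2 := by
  have h2 := norm_add_le a b
  have h3 : ‖a + b‖ ^ 2 ≤ (‖a‖ + ‖b‖) ^ 2 := pow_le_pow_left₀ (norm_nonneg _) h2 2
  nlinarith [sq_nonneg (‖a‖ - ‖b‖)]

theorem sq_sub_le (a b : ℂ) : ‖a - b‖ ^ 2 ≤ 2 * ‖a‖ ^ 2 + 2 * ‖b‖ ^ 2 := by
  have h := sq_add_le a (-b)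
  rwa [norm_neg, ← sub_eq_add_neg] at h

theorem summable_sq_add {α : Type*} {f g : α → ℂ} (hf : Summable fun a => ‖f a‖ ^ 2)
    (hg : Summable fun a => ‖g a‖ ^ 2) : Summable fun a => ‖f a + g a‖ ^ 2 :=
  Summable.of_nonneg_of_le (fun a => by positivity) (fun a => sq_add_le (f a) (g a))
    ((hf.mul_left 2).add (hg.mul_left 2))

theorem summable_sq_sub {α : Type*} {f g : α → ℂ} (hf : Summable fun a => ‖f a‖ ^ 2)
    (hg : Summable fun a => ‖g a‖ ^ 2) : Summable fun a => ‖f a - g a‖ ^ 2 :=
  Summable.of_nonneg_of_le (fun a => by positivity) (fun a => sq_sub_le (f a) (g a))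
    ((hf.mul_left 2).add (hg.mul_left 2))

theorem summable_sq_sum {α ι : Type*} (S : Finset ι) {f : ι → α → ℂ}
    (hf : ∀ i ∈ S, Summable fun a => ‖f i a‖ ^ 2) : Summable fun a => ‖∑ i ∈ S, f i a‖ ^ 2 := by
  classical
  induction S using Finset.induction_on with
  | empty => simp [summable_zero]
  | insert a S ha ih =>
    simp only [Finset.sum_insert ha]
    exact summable_sq_add (hf a (Finset.mem_insert_self a S))
      (ih fun i hi => hf i (Finset.mem_insert_of_mem hi))

/-- A change of variables of bounded multiplicity. -/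
theorem summable_bounded {α β : Type*} {φ : β → ℝ} (h0 : ∀ b, 0 ≤ φ b) (hφ : Summable φ)
    (ψ : α → β) (S : Set α) (M : ℕ)
    (hM : ∀ (b : β) (A : Finset α), (∀ a ∈ A, a ∈ S ∧ ψ a = b) → A.card ≤ M)
    [DecidablePred (· ∈ S)] :
    Summable fun a => if a ∈ S then φ (ψ a) else 0 := by
  classical
  apply summable_of_sum_le (c := M * ∑' b, φ b)
  · intro a
    show 0 ≤ if a ∈ S then φ (ψ a) else 0
    split_ifs
    · exact h0 _
    · exact le_rfl
  · intro A
    have h1 : ∑ a ∈ A, (if a ∈ S then φ (ψ a) else 0) = ∑ a ∈ A.filter (· ∈ S), φ (ψ a) := by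
      rw [Finset.sum_filter]
    rw [h1]
    have h2 : ∑ a ∈ A.filter (· ∈ S), φ (ψ a) =
        ∑ b ∈ (A.filter (· ∈ S)).image ψ, ∑ a ∈ (A.filter (· ∈ S)).filter (fun a => ψ a = b),
          φ (ψ a) := by
      symm
      apply Finset.sum_fiberwise_of_maps_to
      intro a ha
      exact Finset.mem_image_of_mem ψ ha
    rw [h2]
    clear h2
    have h3 : ∀ b ∈ (A.filter (· ∈ S)).image ψ,
        ∑ a ∈ (A.filter (· ∈ S)).filter (fun a => ψ a = b), φ (ψ a) ≤ M * φ b := by
      intro b _
      have h4 : ∀ a ∈ (A.filter (· ∈ S)).filter (fun a => ψ a = b), φ (ψ a) = φ b := by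
        intro a ha
        rw [(Finset.mem_filter.mp ha).2]
      rw [Finset.sum_congr rfl h4, Finset.sum_const, nsmul_eq_mul]
      apply mul_le_mul_of_nonneg_right _ (h0 b)
      have h5 := hM b ((A.filter (· ∈ S)).filter (fun a => ψ a = b)) (by
        intro a ha
        rw [Finset.mem_filter, Finset.mem_filter] at ha
        exact ⟨ha.1.2, ha.2⟩)
      exact_mod_cast h5
    calc _ ≤ ∑ b ∈ (A.filter (· ∈ S)).image ψ, M * φ b := Finset.sum_le_sum h3
      _ = M * ∑ b ∈ (A.filter (· ∈ S)).image ψ, φ b := by rw [Finset.mul_sum]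
      _ ≤ M * ∑' b, φ b := by
        apply mul_le_mul_of_nonneg_left _ (by positivity)
        exact hφ.sum_le_tsum _ (fun b _ => h0 b)

section fam

variable {G V C : Type*} [Group G] [MulAction G V] [AddCommGroup C] [Module ℂ C]

/-- Square-summable functionals for a subgroup. -/
def HK (ρ : Representation ℂ G C) (K : Subgroup G) (u : C →ₗ[ℂ] ℂ) : Prop :=
  ∀ m, Summable fun k : K => ‖u (ρ k m)‖ ^ 2

theorem HK_iff (ρ : Representation ℂ G C) (K : Subgroup G) (u : C →ₗ[ℂ] ℂ) :
    HK ρ K u ↔ HH (rrep ρ K.subtype) u := Iff.rfl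

/-- Square-summable families of functionals. -/
def Fam (ρ : Representation ℂ G C) (y : V → (C →ₗ[ℂ] ℂ)) : Prop :=
  ∀ m v, Summable fun γ : G => ‖y (γ • v) (ρ γ m)‖ ^ 2

variable {ρ : Representation ℂ G C} {y z : V → (C →ₗ[ℂ] ℂ)}

theorem Fam.add (hy : Fam ρ y) (hz : Fam ρ z) : Fam ρ (fun v => y v + z v) :=
  fun m v => summable_sq_add (hy m v) (hz m v)

theorem Fam.sub (hy : Fam ρ y) (hz : Fam ρ z) : Fam ρ (fun v => y v - z v) :=
  fun m v => summable_sq_sub (hy m v) (hz m v)

theorem Fam.zero : Fam ρ (fun _ : V => (0 : C →ₗ[ℂ] ℂ)) := by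
  intro m v
  simp [summable_zero]

theorem Fam.sum {ι : Type*} (S : Finset ι) {f : ι → V → (C →ₗ[ℂ] ℂ)}
    (hf : ∀ i, Fam ρ (f i)) : Fam ρ (fun v => ∑ i ∈ S, f i v) := by
  classical
  induction S using Finset.induction_on with
  | empty => simpa using Fam.zero
  | insert a S ha ih =>
    simp only [Finset.sum_insert ha]
    exact (hf a).add ih

theorem Fam.comp (hy : Fam ρ y) {f : C →ₗ[ℂ] C} (hf : Eqv ρ ρ f) :
    Fam ρ (fun v => y v ∘ₗ f) := by
  intro m v
  refine (hy (f m) v).congr ?_
  intro γ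
  rw [LinearMap.comp_apply, hf]

open Classical in
theorem Fam.ind (hy : Fam ρ y) (B : Set V) : Fam ρ (fun v => if v ∈ B then y v else 0) := by
  intro m v
  refine Summable.of_nonneg_of_le (fun γ => by positivity) ?_ (hy m v)
  intro γ
  beta_reduce
  split_ifs
  · exact le_rfl
  · simp

theorem Fam.at (hy : Fam ρ y) (w : V) (K : Subgroup G) (hK : ∀ g ∈ K, g • w = w) :
    HK ρ K (y w) := by
  intro m
  have h := (hy m w).comp_injective (Subtype.val_injective (p := fun g => g ∈ K))
  refine h.congr ?_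
  intro k
  have hk : (k : G) • w = w := hK k k.2
  simp only [Function.comp_apply, hk]

theorem Fam.of_const (w : V) {u : C →ₗ[ℂ] ℂ} (h : Fam ρ (fun _ : V => u)) : HH ρ u :=
  fun m => h m w

theorem Fam.const {u : C →ₗ[ℂ] ℂ} (h : HH ρ u) : Fam ρ (fun _ : V => u) :=
  fun m _ => h m

theorem summable_cosets (w : V) (K : Subgroup G) (hK' : ∀ g, g ∈ K ↔ g • w = w) (F : Finset V)
    (f : G → ℝ) (h0 : ∀ γ, 0 ≤ f γ)
    (hs : ∀ γ, f γ ≠ 0 → ∃ p ∈ F, γ • p = w)
    (hK : ∀ g : G, Summable fun k : K => f (k * g)) : Summable f := by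
  classical
  have h1 : ∀ p ∈ F, Summable (fun γ : G => if γ • p = w then f γ else 0) := by
    intro p _
    by_cases hp : ∃ g : G, g • p = w
    · obtain ⟨g, hg⟩ := hp
      let i : K → G := fun k => k * g
      have hi : Function.Injective i := fun a b hab => Subtype.ext (mul_right_cancel hab)
      refine (hi.summable_iff ?_).mp ((hK g).congr ?_)
      · intro γ hγ
        rw [if_neg]
        intro h
        apply hγ
        refine ⟨⟨γ * g⁻¹, ?_⟩, ?_⟩
        · rw [hK', mul_smul]
          rw [← hg, inv_smul_smul, h, hg]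
        · simp [i]
      · intro k
        have hk : ((k : G) * g) • p = w := by
          rw [mul_smul, hg]
          exact (hK' k).mp k.2
        simp only [Function.comp_apply, i, if_pos hk]
    · have : (fun γ : G => if γ • p = w then f γ else 0) = fun _ => 0 := by
        funext γ
        rw [if_neg]
        intro h
        exact hp ⟨γ, h⟩
      rw [this]
      exact summable_zero
  refine Summable.of_nonneg_of_le h0 ?_ (summable_sum h1)
  intro γ
  by_cases hγ : f γ = 0
  · rw [hγ]
    apply Finset.sum_nonneg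
    intro p _
    split_ifs <;> simp
  · obtain ⟨p, hp, hpw⟩ := hs γ hγ
    have h2 : (if γ • p = w then f γ else 0) ≤ ∑ p ∈ F, if γ • p = w then f γ else 0 := by
      apply Finset.single_le_sum (f := fun p => if γ • p = w then f γ else 0) _ hp
      intro p _
      split_ifs
      · exact h0 γ
      · exact le_rfl
    rwa [if_pos hpw] at h2

open Classical in
theorem Fam.delta {w : V} {K : Subgroup G} (hK' : ∀ g, g ∈ K ↔ g • w = w) {u : C →ₗ[ℂ] ℂ}
    (hu : HK ρ K u) : Fam ρ (fun v => if v = w then u else 0) := by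
  intro m v
  apply summable_cosets w K hK' {v} _ (fun γ => by positivity)
  · intro γ hγ
    refine ⟨v, by simp, ?_⟩
    by_contra hne
    apply hγ
    beta_reduce
    rw [if_neg hne]
    simp
  · intro g
    refine Summable.of_nonneg_of_le (fun γ => by positivity) ?_ (hu (ρ g m))
    intro k
    rw [map_mul, Module.End.mul_apply]
    beta_reduce
    split_ifs
    · exact le_rfl
    · simp

open Classical in
/-- Change of variables of bounded multiplicity in a family. -/
theorem Fam.move {y : V → (C →ₗ[ℂ] ℂ)} (hy : Fam ρ y) (g : V → G) (B : Set V)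
    (hg : ∀ v : V, ∃ M : ℕ, ∀ (δ : G) (A : Finset G),
      (∀ γ ∈ A, γ • v ∈ B ∧ g (γ • v) * γ = δ) → A.card ≤ M) :
    Fam ρ (fun v => if v ∈ B then y (g v • v) ∘ₗ ρ (g v) else 0) := by
  intro m v
  obtain ⟨M, hM⟩ := hg v
  have h1 := summable_bounded (φ := fun δ : G => ‖y (δ • v) (ρ δ m)‖ ^ 2)
    (fun δ => by positivity) (hy m v) (fun γ : G => g (γ • v) * γ) {γ | γ • v ∈ B} M
    (fun δ A hA => hM δ A hA)
  refine h1.congr ?_
  intro γ
  beta_reduce
  by_cases hγ : γ • v ∈ B
  · rw [if_pos (show γ ∈ {γ | γ • v ∈ B} from hγ), if_pos hγ]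
    simp only [mul_smul, map_mul, Module.End.mul_apply, LinearMap.comp_apply]
  · rw [if_neg (show γ ∉ {γ | γ • v ∈ B} from hγ), if_neg hγ]
    simp

end fam

section basis

variable {G V ι : Type*} [Group G] [MulAction G V]

theorem Fam.of_basis {y : V → ((G × ι →₀ ℂ) →ₗ[ℂ] ℂ)}
    (h : ∀ (x : G) (c : ι) (v : V),
      Summable fun γ : G => ‖y (γ • v) (Finsupp.single (γ * x, c) 1)‖ ^ 2) :
    Fam (prep (lact G ι)) y := by
  intro m v
  induction m using Finsupp.induction_linear with
  | zero => simp [summable_zero]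
  | add f g hf hg =>
    simp only [map_add]
    exact summable_sq_add hf hg
  | single p c =>
    obtain ⟨x, i⟩ := p
    refine ((h x i v).mul_left (‖c‖ ^ 2)).congr ?_
    intro γ
    rw [prep_single, lact_apply]
    have e : (Finsupp.single (γ * x, i) c : G × ι →₀ ℂ) = c • Finsupp.single (γ * x, i) 1 := by
      simp
    rw [e, map_smul, smul_eq_mul, norm_mul, mul_pow]

/-- The functional attached to a family and a base point. -/
noncomputable def rr (w : V) (H : V → ((G × ι →₀ ℂ) →ₗ[ℂ] ℂ)) : (G × ι →₀ ℂ) →ₗ[ℂ] ℂ :=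
  Finsupp.linearCombination ℂ (fun p : G × ι => H (p.1 • w) (Finsupp.single p 1))

theorem rr_single (w : V) (H : V → ((G × ι →₀ ℂ) →ₗ[ℂ] ℂ)) (x : G) (c : ι) :
    rr w H (Finsupp.single (x, c) 1) = H (x • w) (Finsupp.single (x, c) 1) := by
  simp [rr]

theorem fam_sub_rr (w : V) (H : V → ((G × ι →₀ ℂ) →ₗ[ℂ] ℂ))
    (hd : ∀ m v v', Summable fun γ : G =>
      ‖H (γ • v) (prep (lact G ι) γ m) - H (γ • v') (prep (lact G ι) γ m)‖ ^ 2) :
    Fam (prep (lact G ι)) (fun v => H v - rr w H) := by
  apply Fam.of_basis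
  intro x c v
  refine (hd (Finsupp.single (x, c) 1) v (x • w)).congr ?_
  intro γ
  rw [LinearMap.sub_apply, rr_single, mul_smul, prep_single, lact_apply]

/-- Families that change only when a path crosses the base point. -/
theorem diff_of_nb {W : Type*} (w : V) (K : Subgroup G) (hK' : ∀ g, g ∈ K ↔ g • w = w)
    (nb : V → W) (N4 : ∀ v₁ v₂ : V, ∃ F : Finset V, ∀ γ : G, nb (γ • v₁) ≠ nb (γ • v₂) →
      ∃ p ∈ F, γ • p = w) (H : V → ((G × ι →₀ ℂ) →ₗ[ℂ] ℂ))
    (hH : ∀ v v', nb v = nb v' → H v = H v')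
    (hh : ∀ m v, Summable fun k : K => ‖H ((k : G) • v) (prep (lact G ι) k m)‖ ^ 2) :
    ∀ m v v', Summable fun γ : G =>
      ‖H (γ • v) (prep (lact G ι) γ m) - H (γ • v') (prep (lact G ι) γ m)‖ ^ 2 := by
  intro m v v'
  obtain ⟨F, hF⟩ := N4 v v'
  apply summable_cosets w K hK' F _ (fun γ => by positivity)
  · intro γ hγ
    apply hF γ
    intro h
    apply hγ
    rw [hH _ _ h, sub_self]
    simp
  · intro g
    have key : ∀ v', Summable fun k : K =>
        ‖H (((k : G) * g) • v') (prep (lact G ι) ((k : G) * g) m)‖ ^ 2 := by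
      intro v'
      refine (hh (prep (lact G ι) g m) (g • v')).congr ?_
      intro k
      rw [map_mul, Module.End.mul_apply, mul_smul]
    exact summable_sq_sub (key v) (key v')

end basis

/-- Three-colouring of finite parts of a map. -/
theorem exists_colouring_finset {V : Type*} (Θ : V → V) (S : Finset V) :
    ∃ c : V → Fin 3, ∀ e ∈ S, Θ e ∈ S → Θ e ≠ e → c (Θ e) ≠ c e := by
  classical
  induction hn : S.card using Nat.strong_induction_on generalizing S with
  | _ n ih =>
    subst hn
    by_cases hS : S.Nonempty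
    · -- a point with at most one preimage
      obtain ⟨a, ha, ha1⟩ : ∃ a ∈ S, (S.filter (fun e => Θ e = a)).card ≤ 1 := by
        by_contra hcon
        push Not at hcon
        have h1 : ∑ a ∈ S, (S.filter (fun e => Θ e = a)).card ≤ S.card := by
          have h2 : ∑ a ∈ S, (S.filter (fun e => Θ e = a)).card =
              (S.biUnion fun a => S.filter (fun e => Θ e = a)).card := by
            rw [Finset.card_biUnion]
            intro a _ b _ hab
            simp only [Function.onFun]
            rw [Finset.disjoint_left]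
            intro e he he'
            exact hab ((Finset.mem_filter.mp he).2.symm.trans (Finset.mem_filter.mp he').2)
          rw [h2]
          apply Finset.card_le_card
          intro e he
          obtain ⟨a, _, h⟩ := Finset.mem_biUnion.mp he
          exact (Finset.mem_filter.mp h).1
        have h3 : ∑ _a ∈ S, 1 < ∑ a ∈ S, (S.filter (fun e => Θ e = a)).card :=
          Finset.sum_lt_sum_of_nonempty hS hcon
        simp only [Finset.sum_const, smul_eq_mul, mul_one] at h3
        omega
      obtain ⟨c, hc⟩ := ih (S.erase a).card (Finset.card_erase_lt_of_mem ha) (S.erase a) rfl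
      -- the possible preimage
      obtain ⟨b, hb⟩ : ∃ b : V, ∀ e ∈ S, Θ e = a → e = b := by
        have : Nonempty V := ⟨a⟩
        rw [Finset.card_le_one_iff_subset_singleton] at ha1
        obtain ⟨b, hb⟩ := ha1
        exact ⟨b, fun e he h => Finset.mem_singleton.mp (hb (Finset.mem_filter.mpr ⟨he, h⟩))⟩
      obtain ⟨k, hk1, hk2⟩ : ∃ k : Fin 3, k ≠ c (Θ a) ∧ k ≠ c b := by
        generalize c (Θ a) = x
        generalize c b = y
        revert x y
        decide
      refine ⟨Function.update c a k, ?_⟩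
      intro e he hΘ hne
      by_cases hea : e = a
      · subst hea
        rw [Function.update_self, Function.update_of_ne hne]
        exact hk1.symm
      · rw [Function.update_of_ne hea]
        by_cases hΘa : Θ e = a
        · rw [hΘa, Function.update_self]
          rw [hb e he hΘa]
          exact hk2
        · rw [Function.update_of_ne hΘa]
          exact hc e (Finset.mem_erase.mpr ⟨hea, he⟩) (Finset.mem_erase.mpr ⟨hΘa, hΘ⟩) hne
    · rw [Finset.not_nonempty_iff_eq_empty] at hS
      subst hS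
      exact ⟨fun _ => 0, by simp⟩

/-- Three-colouring of a map. -/
theorem exists_colouring {V : Type*} (Θ : V → V) :
    ∃ c : V → Fin 3, ∀ e, Θ e ≠ e → c (Θ e) ≠ c e := by
  classical
  choose g hg using exists_colouring_finset Θ
  obtain ⟨χ, hχ⟩ := Finset.rado_selection (β := fun _ : V => Fin 3) g
  refine ⟨χ, ?_⟩
  intro e he
  obtain ⟨t, ht, ht2⟩ := hχ {e, Θ e}
  have he1 : e ∈ ({e, Θ e} : Finset V) := by simp
  have he2 : Θ e ∈ ({e, Θ e} : Finset V) := by simp
  rw [ht2 e he1, ht2 (Θ e) he2]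
  exact hg t e (ht he1) (ht he2) he

end Pool.Agent.Lib.P9f173dT
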