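import Pool.Agent.Lib.P9f173dT.Core
import Pool.Agent.Lib.P9f173dT.Choice
import Pool.Agent.Lib.P9f173dT.FG
import Pool.Agent.Lib.P9f173dT.Back

/-!
The zero in the spectrum property for groups acting on trees.
-/

namespace Pool.Agent.Lib.P9f173dT

open Pool.Agent.Lib.P9f173d

section main

variable {G V : Type*} [Group G] [MulAction G V]

theorem hhExact_stabilizer (R : FreeRes G) {T : SimpleGraph V} (hT : T.IsTree)
    (hadj : ∀ (g : G) (v v' : V), T.Adj v v' → T.Adj (g • v) (g • v')) (w : V)
    (hq : ∀ v, T.Adj w v → ∃ q : G, T.dist w (q • w) < T.dist v (q • v) ∧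
      (Subgroup.centralizer {q}).relIndex
        (MulAction.stabilizer G w ⊓ MulAction.stabilizer G v) ≠ 0)
    (hex : HHExact (R.toCx (MonoidHom.id G))) :
    HHExact (R.toCx (MulAction.stabilizer G w).subtype) := by
  classical
  obtain ⟨nb, hnb⟩ := exists_nb hT hadj w
  obtain ⟨S, hS⟩ := exists_closure_eq_top R
  obtain ⟨R₀, hR₀⟩ := finite_dirs hnb S hS
  obtain ⟨q, η, hq1, hq3, ⟨M, hM⟩, hq5⟩ := exists_choice R hT hadj hnb R₀ hR₀ hq
  have hnbw : nb w = w := hnb.base
  have hne : ∀ v, v ≠ w → nb v ≠ w := fun v hv => (hnb.adj v hv).ne'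
  intro u hu hud
  set w₀ : MulAction.orbit G w := ⟨w, MulAction.mem_orbit_self w⟩ with hw₀
  have hsub : ∀ v : MulAction.orbit G w, v ≠ w₀ → (v : V) ≠ w := by
    intro v hv h
    exact hv (Subtype.ext h)
  have hK : ∀ g : G, g ∈ MulAction.stabilizer G w ↔ g • w₀ = w₀ := by
    intro g
    rw [MulAction.mem_stabilizer_iff]
    constructor
    · intro h
      exact Subtype.ext h
    · intro h
      exact congrArg Subtype.val h
  have N2 : ∀ v : MulAction.orbit G w, nb (v : V) = nb (w₀ : V) → v = w₀ := by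
    intro v h
    by_contra hv
    have h1 := hne v (hsub v hv)
    apply h1
    rw [h]
    exact hnbw
  have N4 : ∀ v₁ v₂ : MulAction.orbit G w, ∃ F : Finset (MulAction.orbit G w), ∀ γ : G,
      nb ((γ • v₁ : MulAction.orbit G w) : V) ≠ nb ((γ • v₂ : MulAction.orbit G w) : V) →
        ∃ p ∈ F, γ • p = w₀ := by
    intro v₁ v₂
    obtain ⟨F, hF⟩ := hnb.cut (v₁ : V) (v₂ : V)
    refine ⟨F.subtype (· ∈ MulAction.orbit G w), ?_⟩
    intro γ hγ
    obtain ⟨p, hp, hpw⟩ := hF γ hγ
    have hp' : p ∈ MulAction.orbit G w := ⟨γ⁻¹, by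
      show γ⁻¹ • w = p
      rw [← hpw, inv_smul_smul]⟩
    refine ⟨⟨p, hp'⟩, ?_, ?_⟩
    · rw [Finset.mem_subtype]
      exact hp
    · exact Subtype.ext hpw
  have key := core (R := R) hex w₀ (MulAction.stabilizer G w) hK
    (fun v : MulAction.orbit G w => nb (v : V)) N2 N4
    (fun e => nb (q e • e))
    (by
      intro v hv
      have hv' := hsub v hv
      exact q_nb_ne hT hadj hnb (hnb.adj _ hv') (hq1 _ (hnb.adj _ hv')))
    (fun v => q (nb (v : V))) (fun v => η (nb (v : V)))
    (by
      intro v hv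
      have hv' := hsub v hv
      exact q_nb hT hadj hnb (hnb.adj _ hv') (hq1 _ (hnb.adj _ hv')) (hnb.dist _ hv'))
    (by
      intro v hv m
      exact hq3 _ (hnb.adj _ (hsub v hv)) m)
    (by
      intro v
      refine ⟨M, fun δ A hA => hM v v.2 δ A fun γ hγ => ?_⟩
      obtain ⟨h1, h2⟩ := hA γ hγ
      exact ⟨hsub _ h1, h2⟩)
    (by
      intro E s y hE1 _ hy hys
      have hs : HK (prep (lact G R.cell)) (MulAction.stabilizer G w) s := by
        have h1 := hy.at w₀ (MulAction.stabilizer G w) (fun g hg => (hK g).mp hg)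
        rwa [hys w₀ hE1] at h1
      apply diff_of_nb w₀ (MulAction.stabilizer G w) hK
        (fun v : MulAction.orbit G w => nb (v : V)) N4
        (fun v : MulAction.orbit G w => if nb (v : V) ∈ E then s ∘ₗ η (nb (v : V)) else 0)
      · intro v v' h
        simp only [h]
      · intro m v
        by_cases hv : v = w₀
        · subst hv
          have e1 : ∀ k : MulAction.stabilizer G w,
              ‖(if nb (((k : G) • w₀ : MulAction.orbit G w) : V) ∈ E then
                s ∘ₗ η (nb (((k : G) • w₀ : MulAction.orbit G w) : V)) else 0)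
                  (prep (lact G R.cell) (k : G) m)‖ ^ 2 = 0 := by
            intro k
            rw [(hK k).mp k.2, if_neg hE1]
            simp
          refine (summable_zero).congr ?_
          intro k
          exact (e1 k).symm
        · have hv' := hsub v hv
          refine Summable.of_nonneg_of_le (fun γ => by positivity) ?_
            (hq5 s hs (nb (v : V)) (hnb.adj _ hv') m)
          intro k
          have h1 : nb (((k : G) • v : MulAction.orbit G w) : V) = (k : G) • nb (v : V) :=
            hnb.eqv k k.2 v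
          rw [h1]
          split_ifs
          · exact le_rfl
          · simp)
    u hu hud
  obtain ⟨τ, hτ1, hτ2⟩ := key
  exact ⟨τ, hτ1, hτ2⟩

/-- The main theorem. -/
theorem main (R : FinRes G) {T : SimpleGraph V} (hT : T.IsTree)
    (hadj : ∀ (g : G) (v v' : V), T.Adj v v' → T.Adj (g • v) (g • v')) (w : V)
    (hq : ∀ v, T.Adj w v → ∃ q : G, T.dist w (q • w) < T.dist v (q • v) ∧
      (Subgroup.centralizer {q}).relIndex
        (MulAction.stabilizer G w ⊓ MulAction.stabilizer G v) ≠ 0)
    (S : FinRes (MulAction.stabilizer G w))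
    {H : Type*} [NormedAddCommGroup H] [InnerProductSpace ℂ H] [CompleteSpace H]
    (e : HilbertBasis G ℂ H) (lam : G →* (H →L[ℂ] H)) (hlam : ∀ g h, lam g (e h) = e (g * h))
    {H' : Type*} [NormedAddCommGroup H'] [InnerProductSpace ℂ H'] [CompleteSpace H']
    (e' : HilbertBasis (MulAction.stabilizer G w) ℂ H')
    (lam' : MulAction.stabilizer G w →* (H' →L[ℂ] H'))
    (hlam' : ∀ g h, lam' g (e' h) = e' (g * h))
    (hS : ∃ i, HomologyNonzero S lam' i) : ∃ i, HomologyNonzero R lam i := by
  by_contra hcon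
  have hvan : ∀ i, Subsingleton (R.toFreeRes.HRed lam i) := by
    intro i
    rcases subsingleton_or_nontrivial (R.toFreeRes.HRed lam i) with h | h
    · exact h
    · exact absurd ⟨i, homologyNonzero_of_nontrivial R lam h⟩ hcon
  have hex := R.toFreeRes.hhExact_id hlam hvan
  have h1 := hhExact_stabilizer R.toFreeRes hT hadj w hq hex
  have h2 : HHExact (S.toFreeRes.toCx (MonoidHom.id (MulAction.stabilizer G w))) :=
    HHExact.transfer
      (R.toFreeRes.toCx_proj _ (Subgroup.subtype_injective _))
      (S.toFreeRes.toCx_proj _ (fun _ _ h => h))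
      (R.toFreeRes.toCx_exact _) (S.toFreeRes.toCx_exact _) h1
  obtain ⟨i, hi⟩ := hS
  exact not_homologyNonzero S hlam' h2 i hi

end main

end Pool.Agent.Lib.P9f173dT
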